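import Pool.Agent.P.MP_029dcd_co.F.LayB

/-! Layer C: classes of triple systems for which the cubic theorem holds. -/

set_option autoImplicit false

namespace ECub.C

open CubicStab Finset

abbrev Tri := Fin 3 → Pt

/-- the cubic theorem for the class `𝒞` of sets of triples -/
def CUB (𝒞 : Finset Tri → Prop) : Prop :=
  ∀ (k : ℕ) (γ : ℝ), 0 < γ → ∃ η : ℝ, 0 < η ∧ ∃ N0 : ℕ, ∀ N, N0 ≤ N →
    ∀ (P : Fin 3 → Finset Pt) (T : Finset Tri), TS k N P T → 𝒞 T →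
      γ * (N : ℝ) ^ 2 ≤ T.card → Cub (η * (N : ℝ) ^ 2) T

/-- the slopes of every triple satisfy `Φ` -/
def All (Φ : (Fin 3 → ℝ) → Prop) (T : Finset Tri) : Prop := ∀ τ ∈ T, Φ fun i => (τ i).1

def StdS (t : Fin 3 → ℝ) : Prop := ∀ i, |t i - ctr i| ≤ 1 / 100

def Sep (θ : ℝ) (t : Fin 3 → ℝ) : Prop :=
  ∀ i j, i ≠ j → θ * max 1 |t i| * max 1 |t j| ≤ |t i - t j|

def CoreS (t : Fin 3 → ℝ) : Prop := t 1 ≠ 0 ∧ 100 * |t 0| ≤ |t 1| ∧ 100 * |t 1| ≤ |t 2|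

def TwoS (t : Fin 3 → ℝ) : Prop :=
  t 0 < 0 ∧ 0 < t 1 ∧ 100 * |t 0| ≤ |t 2| ∧ 100 * |t 1| ≤ |t 2|

def OrdS (t : Fin 3 → ℝ) : Prop := t 0 < 0 ∧ 0 < t 1 ∧ t 1 < 1 ∧ 1 < t 2

/-- after one Moebius map the slopes of every triple satisfy `Φ` -/
def Mob (Φ : (Fin 3 → ℝ) → Prop) (T : Finset Tri) : Prop :=
  ∃ a b c d : ℝ, a * d - b * c ≠ 0 ∧
    All (fun t => (∀ i, c * t i + d ≠ 0) ∧ Φ fun i => (a * t i + b) / (c * t i + d)) T

/-- the three families are separated by two numbers -/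
def Ord2 (T : Finset Tri) : Prop :=
  ∃ u w : ℝ, u < w ∧ All (fun t => t 0 < u ∧ u < t 1 ∧ t 1 < w ∧ w < t 2) T

variable {k N : ℕ} {P : Fin 3 → Finset Pt} {T : Finset Tri}

theorem ts_sub (h : TS k N P T) {N' : ℕ} {P' : Fin 3 → Finset Pt} {T' : Finset Tri}
    (hP : ∀ i, P' i ⊆ P i) (hT : T' ⊆ T) (hm : ∀ τ ∈ T', ∀ i, τ i ∈ P' i)
    (hN : ∀ i, (P' i).card ≤ N') : TS k N' P' T' where
  card_le := hN
  disj i j hij := (h.disj i j hij).mono (hP i) (hP j)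
  inj i j p hp q hq := h.inj i j p (hP i hp) q (hP j hq)
  few v S hS := h.few v S fun p hp => (hS p hp).imp fun i hi => hP i hi
  mem := hm
  col τ hτ := h.col τ (hT hτ)
  one τ hτ τ' hτ' := h.one τ (hT hτ) τ' (hT hτ')

theorem ts_subT (h : TS k N P T) {T' : Finset Tri} (hT : T' ⊆ T) : TS k N P T' :=
  ts_sub h (fun _ => Subset.rfl) hT (fun τ hτ => h.mem τ (hT hτ)) h.card_le

theorem ts_ne (h : TS k N P T) {τ τ' : Tri} (hτ : τ ∈ T) (hτ' : τ' ∈ T) {i j : Fin 3}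
    (hij : i ≠ j) : τ i ≠ τ' j := fun e =>
  disjoint_left.1 (h.disj i j hij) (h.mem τ hτ i) (e ▸ h.mem τ' hτ' j)

theorem ts_fst_ne (h : TS k N P T) {τ τ' : Tri} (hτ : τ ∈ T) (hτ' : τ' ∈ T) {i j : Fin 3}
    (hij : i ≠ j) : (τ i).1 ≠ (τ' j).1 := fun e =>
  ts_ne h hτ hτ' hij (h.inj i j _ (h.mem τ hτ i) _ (h.mem τ' hτ' j) e)

/-- two points of a triple determine it -/
theorem ts_two (h : TS k N P T) {τ τ' : Tri} (hτ : τ ∈ T) (hτ' : τ' ∈ T) {i j : Fin 3}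
    (hij : i ≠ j) (e₁ : τ i = τ' i) (e₂ : τ j = τ' j) : τ = τ' := by
  obtain ⟨v, hv⟩ := h.col τ hτ
  obtain ⟨v', hv'⟩ := h.col τ' hτ'
  have : v = v' := line_unique (ts_ne h hτ hτ hij) (hv i) (hv j) (e₁ ▸ hv' i) (e₂ ▸ hv' j)
  exact h.one τ hτ τ' hτ' v hv (this ▸ hv')

/-- the common point of a triple is unique -/
theorem ts_pt (h : TS k N P T) {τ : Tri} (hτ : τ ∈ T) {v v' : Pt} (hv : ∀ i, On (τ i) v)
    (hv' : ∀ i, On (τ i) v') : v = v' :=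
  line_unique (ts_ne h hτ hτ (show (0 : Fin 3) ≠ 1 by decide)) (hv 0) (hv 1) (hv' 0) (hv' 1)

open Classical in
/-- a point lies in at most `N` triples -/
theorem ts_deg (h : TS k N P T) (i : Fin 3) (p : Pt) : (T.filter fun τ => τ i = p).card ≤ N := by
  have hi : i ≠ i + 1 := by fin_cases i <;> decide
  refine le_trans (card_le_card_of_injOn (fun τ => τ (i + 1)) (fun τ hτ => ?_)
    fun τ hτ τ' hτ' e => ?_) (h.card_le (i + 1))
  · exact h.mem τ (mem_filter.1 hτ).1 _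
  · obtain ⟨a, b⟩ := mem_filter.1 hτ
    obtain ⟨a', b'⟩ := mem_filter.1 hτ'
    exact ts_two h a a' hi (b.trans b'.symm) e

theorem cub_mono {x x' : ℝ} {T' : Finset Tri} (hT : T' ⊆ T) (hx : x' ≤ x) (h : Cub x T') :
    Cub x' T := by
  obtain ⟨f, h0, h3, hf⟩ := h
  refine ⟨f, h0, h3, hx.trans (hf.trans (Nat.cast_le.2 (card_le_card ?_)))⟩
  unfold cov
  exact filter_subset_filter _ hT

theorem All.sub {Φ : (Fin 3 → ℝ) → Prop} {T' : Finset Tri} (h : All Φ T) (hT : T' ⊆ T) :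
    All Φ T' := fun τ hτ => h τ (hT hτ)

theorem CUB.mono {𝒞 𝒟 : Finset Tri → Prop} (h : CUB 𝒞) (hD : ∀ T, 𝒟 T → 𝒞 T) : CUB 𝒟 := by
  intro k γ hγ
  obtain ⟨η, hη, N0, H⟩ := h k γ hγ
  exact ⟨η, hη, N0, fun N hN P T hT hc => H N hN P T hT (hD T hc)⟩

theorem CUB.imp {Φ Ψ : (Fin 3 → ℝ) → Prop} (h : CUB (All Φ)) (hD : ∀ t, Ψ t → Φ t) :
    CUB (All Ψ) := h.mono fun _ hT τ hτ => hD _ (hT τ hτ)

/-- passing to a dense sub-system -/
theorem CUB.sub {𝒞 𝒟 : Finset Tri → Prop} (h : CUB 𝒞)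
    (hD : ∀ (k : ℕ) (γ : ℝ), 0 < γ → ∃ γ' : ℝ, 0 < γ' ∧ ∃ N1 : ℕ, ∀ N, N1 ≤ N →
      ∀ (P : Fin 3 → Finset Pt) (T : Finset Tri), TS k N P T → 𝒟 T → γ * (N : ℝ) ^ 2 ≤ T.card →
        ∃ T' ⊆ T, 𝒞 T' ∧ γ' * (N : ℝ) ^ 2 ≤ T'.card) : CUB 𝒟 := by
  intro k γ hγ
  obtain ⟨γ', hγ', N1, H1⟩ := hD k γ hγ
  obtain ⟨η, hη, N0, H⟩ := h k γ' hγ'
  refine ⟨η, hη, max N0 N1, fun N hN P T hT hc hcard => ?_⟩
  obtain ⟨T', hs, hc', hcard'⟩ := H1 N (le_of_max_le_right hN) P T hT hc hcard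
  exact cub_mono hs le_rfl (H N (le_of_max_le_left hN) P T' (ts_subT hT hs) hc' hcard')

theorem CUB.orT {𝒞 𝒟 : Finset Tri → Prop} (h : CUB 𝒞) (h' : CUB 𝒟) :
    CUB fun T => 𝒞 T ∨ 𝒟 T := by
  intro k γ hγ
  obtain ⟨η, hη, N0, H⟩ := h k γ hγ
  obtain ⟨η', hη', N0', H'⟩ := h' k γ hγ
  refine ⟨min η η', lt_min hη hη', max N0 N0', fun N hN P T hT hc hcard => ?_⟩
  rcases hc with hc | hc
  · exact cub_mono Subset.rfl (mul_le_mul_of_nonneg_right (min_le_left _ _) (by positivity))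
      (H N (le_of_max_le_left hN) P T hT hc hcard)
  · exact cub_mono Subset.rfl (mul_le_mul_of_nonneg_right (min_le_right _ _) (by positivity))
      (H' N (le_of_max_le_right hN) P T hT hc hcard)

theorem CUB.or {Φ Ψ : (Fin 3 → ℝ) → Prop} (h : CUB (All Φ)) (h' : CUB (All Ψ)) :
    CUB (All fun t => Φ t ∨ Ψ t) := by
  classical
  refine (h.orT h').sub fun k γ hγ => ⟨γ / 2, by positivity, 0, fun N _ P T _ hc hcard => ?_⟩
  have e := card_filter_add_card_filter_not (s := T) fun τ => Φ fun i => (τ i).1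
  have e' : ((T.filter fun τ => Φ fun i => (τ i).1).card : ℝ) +
      (T.filter fun τ => ¬ Φ fun i => (τ i).1).card = T.card := by exact_mod_cast e
  by_cases h1 : γ / 2 * (N : ℝ) ^ 2 ≤ (T.filter fun τ => Φ fun i => (τ i).1).card
  · exact ⟨_, filter_subset _ _, Or.inl fun τ hτ => (mem_filter.1 hτ).2, h1⟩
  · refine ⟨T.filter fun τ => ¬ Φ fun i => (τ i).1, filter_subset _ _,
      Or.inr fun τ hτ => (hc τ (mem_filter.1 hτ).1).resolve_left (mem_filter.1 hτ).2, ?_⟩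
    linarith [not_le.1 h1]

theorem cub_false : CUB (All fun _ => False) := by
  intro k γ hγ
  refine ⟨1, one_pos, 1, fun N hN P T _ hc hcard => ?_⟩
  have : T = ∅ := eq_empty_of_forall_notMem fun τ hτ => hc τ hτ
  rw [this, card_empty, Nat.cast_zero] at hcard
  have : (0 : ℝ) < N := by exact_mod_cast hN
  exact absurd hcard (not_le.2 (by positivity))

theorem CUB.fin {ι : Type} (s : Finset ι) (Φ : ι → (Fin 3 → ℝ) → Prop)
    (h : ∀ j ∈ s, CUB (All (Φ j))) : CUB (All fun t => ∃ j ∈ s, Φ j t) := by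
  classical
  induction s using Finset.induction_on with
  | empty => exact cub_false.imp (by simp)
  | insert a s _ ih =>
    refine ((h a (mem_insert_self _ _)).or
      (ih fun j hj => h j (mem_insert_of_mem hj))).imp fun t ht => ?_
    simpa using ht

theorem CUB.perm {Φ : (Fin 3 → ℝ) → Prop} (h : CUB (All Φ)) (σ : Equiv.Perm (Fin 3)) :
    CUB (All fun t => Φ fun i => t (σ i)) := by
  classical
  intro k γ hγ
  obtain ⟨η, hη, N0, H⟩ := h k γ hγ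
  refine ⟨η, hη, N0, fun N hN P T hT hc hcard => ?_⟩
  have hinj : Function.Injective fun (τ : Tri) (i : Fin 3) => τ (σ i) := fun τ τ' e => by
    funext i
    simpa using congrFun e (σ.symm i)
  have hall : ∀ (τ : Tri) (q : Pt → Prop), (∀ i, q (τ (σ i))) ↔ ∀ i, q (τ i) :=
    fun τ q => ⟨fun h i => by simpa using h (σ.symm i), fun h i => h _⟩
  have hT' : TS k N (fun i => P (σ i)) (T.image fun τ i => τ (σ i)) :=
    { card_le := fun i => hT.card_le _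
      disj := fun i j hij => hT.disj _ _ fun e => hij (σ.injective e)
      inj := fun i j => hT.inj _ _
      few := fun v S hS => hT.few v S fun p hp => (hS p hp).elim fun i hi => ⟨_, hi⟩
      mem := by
        intro τ hτ i
        obtain ⟨ρ, hρ, rfl⟩ := mem_image.1 hτ
        exact hT.mem ρ hρ _
      col := by
        intro τ hτ
        obtain ⟨ρ, hρ, rfl⟩ := mem_image.1 hτ
        exact (hT.col ρ hρ).imp fun v hv i => hv _
      one := by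
        intro τ hτ τ' hτ' v hv hv'
        obtain ⟨ρ, hρ, rfl⟩ := mem_image.1 hτ
        obtain ⟨ρ', hρ', rfl⟩ := mem_image.1 hτ'
        rw [hT.one ρ hρ ρ' hρ' v ((hall ρ (On · v)).1 hv) ((hall ρ' (On · v)).1 hv')] }
  obtain ⟨f, h0, h3, hf⟩ := H N hN _ _ hT' (by
    intro τ hτ
    obtain ⟨ρ, hρ, rfl⟩ := mem_image.1 hτ
    exact hc ρ hρ) (by rwa [card_image_of_injective _ hinj])
  refine ⟨f, h0, h3, hf.trans (Nat.cast_le.2 (le_trans (card_le_card ?_)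
    (card_image_le (f := fun (τ : Tri) (i : Fin 3) => τ (σ i)))))⟩
  intro τ hτ
  unfold cov at hτ ⊢
  obtain ⟨a, b⟩ := mem_filter.1 hτ
  obtain ⟨ρ, hρ, rfl⟩ := mem_image.1 a
  exact mem_image_of_mem _ (mem_filter.2 ⟨hρ, (hall ρ (ev f · = 0)).1 b⟩)

theorem cub_std (h : ThmI) : CUB (All StdS) := by
  classical
  intro k γ hγ
  obtain ⟨η, hη, N0, H⟩ := h k γ hγ
  refine ⟨η, hη, N0, fun N hN P T hT hc hcard => ?_⟩
  exact H N hN (fun i => (P i).filter fun p => |p.1 - ctr i| ≤ 1 / 100) T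
    (ts_sub hT (fun i => filter_subset _ _) Subset.rfl
      (fun τ hτ i => mem_filter.2 ⟨hT.mem τ hτ i, hc τ hτ i⟩)
      fun i => (card_filter_le _ _).trans (hT.card_le i))
    (fun i p hp => (mem_filter.1 hp).2) hcard

end ECub.C
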