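import Pool.Agent.P.MP_029dcd_co.F.C.Base
import Pool.Agent.P.MP_029dcd_co.Sector

/-! Layer C: a base point for triples with very different slopes. -/

set_option autoImplicit false

namespace ECub.C

open CubicStab Finset

/-- seen from the point `z₀` the common point of each triple lies in the direction of the middle
slope, up to a bounded factor -/
def Far (z₀ : Pt) (T : Finset Tri) : Prop :=
  ∀ τ ∈ T, ∀ z : Pt, (∀ i, On (τ i) z) → z.1 ≠ z₀.1 ∧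
    3 / 5 * (|(τ 1).1| * |z.1 - z₀.1|) ≤ |z.2 - z₀.2| ∧
    |z.2 - z₀.2| ≤ 7 / 5 * (|(τ 1).1| * |z.1 - z₀.1|)

theorem ca_int {α : Type*} (S : Finset α) (x : α → ℝ) (hx : Set.InjOn x S) (h10 : 10 ≤ #S) :
    ∃ d : ℝ, 0 < d ∧ ∃ a : ℝ, #S ≤ 10 * #(S.filter fun σ => a ≤ x σ ∧ x σ ≤ a + d) ∧
      ∀ x0 : ℝ, 3 * #S ≤ 10 * #(S.filter fun σ => 3 * d ≤ |x σ - x0|) := by
  classical
  have key : ∀ U ⊆ S, #S / 10 + 1 ≤ #U → ∃ p ∈ (S ×ˢ S).filter fun p : α × α =>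
      #S / 10 + 1 ≤ #(S.filter fun σ => x p.1 ≤ x σ ∧ x σ ≤ x p.2), p.1 ∈ U ∧ p.2 ∈ U := by
    intro U hU hm
    have hne : U.Nonempty := card_pos.1 (by omega)
    obtain ⟨s, hs, hs'⟩ := exists_min_image U x hne
    obtain ⟨t, ht, ht'⟩ := exists_max_image U x hne
    exact ⟨(s, t), mem_filter.2 ⟨mem_product.2 ⟨hU hs, hU ht⟩, hm.trans (card_le_card fun σ hσ =>
      mem_filter.2 ⟨hU hσ, hs' σ hσ, ht' σ hσ⟩)⟩, hs, ht⟩
  obtain ⟨p0, hp0, -⟩ := key S Subset.rfl (by omega)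
  obtain ⟨p, hp, hmin⟩ := exists_min_image _ (fun p : α × α => x p.2 - x p.1) ⟨p0, hp0⟩
  have hp2 := (mem_filter.1 hp).2
  have hd : 0 < x p.2 - x p.1 := by
    obtain ⟨s, hs, t, ht, hst⟩ := one_lt_card.1
      (show 1 < #(S.filter fun σ => x p.1 ≤ x σ ∧ x σ ≤ x p.2) by omega)
    obtain ⟨s1, s2, s3⟩ := mem_filter.1 hs
    obtain ⟨t1, t2, t3⟩ := mem_filter.1 ht
    by_contra hc
    exact hst (hx s1 t1 (by linarith [not_lt.1 hc]))
  set d := x p.2 - x p.1 with hd'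
  refine ⟨d, hd, x p.1, ?_, fun x0 => ?_⟩
  · rw [hd', add_sub_cancel]
    omega
  have small : ∀ c : ℝ, #(S.filter fun σ => c ≤ x σ ∧ x σ ≤ c + 6 * d / 7) ≤ #S / 10 := fun c => by
    by_contra hc
    obtain ⟨q, hq, q1, q2⟩ := key _ (filter_subset _ _) (Nat.succ_le_of_lt (not_le.1 hc))
    have := hmin q hq
    linarith [(mem_filter.1 q1).2.1, (mem_filter.1 q2).2.2]
  have cover : (S.filter fun σ => ¬ 3 * d ≤ |x σ - x0|) ⊆ (range 7).biUnion fun j : ℕ =>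
      S.filter fun σ => x0 - 3 * d + j * (6 * d / 7) ≤ x σ ∧
        x σ ≤ x0 - 3 * d + j * (6 * d / 7) + 6 * d / 7 := fun σ hσ => by
    obtain ⟨h1, h2⟩ := mem_filter.1 hσ
    obtain ⟨h3, h4⟩ := abs_lt.1 (not_le.1 h2)
    have h5 : 0 < 6 * d / 7 := by positivity
    have h6 : 0 ≤ (x σ - (x0 - 3 * d)) / (6 * d / 7) := div_nonneg (by linarith) h5.le
    have h7 := (le_div_iff₀ h5).1 (Nat.floor_le h6)
    have h8 := (div_lt_iff₀ h5).1 (Nat.lt_floor_add_one ((x σ - (x0 - 3 * d)) / (6 * d / 7)))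
    refine mem_biUnion.2 ⟨_, mem_range.2 ((Nat.floor_lt h6).2 ?_), mem_filter.2
      ⟨h1, by linarith, by linarith⟩⟩
    rw [div_lt_iff₀ h5]
    push_cast
    linarith
  have h1 := (card_le_card cover).trans (card_biUnion_le.trans
    (sum_le_card_nsmul _ _ _ fun j _ => small _))
  have h2 := card_filter_add_card_filter_not (s := S) fun σ => 3 * d ≤ |x σ - x0|
  rw [card_range, smul_eq_mul] at h1
  omega

theorem ca_real {tp tr tq z x1 x2 d e : ℝ} (h1 : 100 * |tp| ≤ |tr|) (h2 : 100 * |tr| ≤ |tq|)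
    (e1 : e = (tr - tp) * (z - x1)) (e2 : e = (tr - tq) * (z - x2)) (hd : |x2 - x1| ≤ d) :
    |e| ≤ 11 / 10 * |tr| * d := by
  have a1 : |tr - tp| ≤ 101 / 100 * |tr| := by linarith [abs_sub tr tp]
  have a2 : 99 * |tr| ≤ |tr - tq| := by linarith [abs_sub_abs_le_abs_sub tq tr, abs_sub_comm tq tr]
  have a3 : |z - x1| ≤ |z - x2| + d := by linarith [abs_sub_le z x2 x1]
  have a4 : |e| ≤ 101 / 100 * |tr| * (|z - x2| + d) := by
    rw [e1, abs_mul]
    exact mul_le_mul a1 a3 (abs_nonneg _) (by positivity)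
  have a5 : 99 * |tr| * |z - x2| ≤ |e| := by
    rw [e2, abs_mul]
    exact mul_le_mul_of_nonneg_right a2 (abs_nonneg _)
  nlinarith [mul_nonneg (abs_nonneg tr) ((abs_nonneg _).trans hd)]

theorem core_sub (k : ℕ) (γ : ℝ) (hγ : 0 < γ) : ∃ γ' : ℝ, 0 < γ' ∧ ∃ N1 : ℕ, ∀ N, N1 ≤ N →
    ∀ (P : Fin 3 → Finset Pt) (T : Finset Tri), TS k N P T → All CoreS T →
      γ * (N : ℝ) ^ 2 ≤ T.card → ∃ T' ⊆ T, (∃ z₀, Far z₀ T') ∧ γ' * (N : ℝ) ^ 2 ≤ T'.card := by
  classical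
  refine ⟨(γ / 20) ^ 2 * (γ / 4) * (3 * γ / 20), by positivity, ⌈20 / γ⌉₊, ?_⟩
  intro N hN P T h hc hcard
  have hγN : 20 ≤ γ * N := by
    have := Nat.ceil_le.1 hN
    rw [div_le_iff₀ hγ] at this
    linarith
  have hN0 : (0 : ℝ) < N := by
    by_contra h0
    nlinarith [not_lt.1 h0]
  choose! v hv using h.col
  set R := (P 1).filter fun r => γ * N / 2 ≤ (#(T.filter fun τ => τ 1 = r) : ℝ) with hR
  have hRc : γ * N / 2 ≤ #R := by
    have e := card_eq_sum_card_fiberwise (s := T) (t := P 1) (f := fun τ => τ 1)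
      fun τ hτ => h.mem τ hτ 1
    have e1 : (#T : ℝ) ≤ ∑ r ∈ P 1, ((if r ∈ R then (N : ℝ) else 0) + γ * N / 2) := by
      rw [e, Nat.cast_sum]
      refine sum_le_sum fun r hr => ?_
      split_ifs with h1
      · have : (#(T.filter fun τ => τ 1 = r) : ℝ) ≤ N := by exact_mod_cast ts_deg h 1 r
        linarith
      · rw [hR, mem_filter] at h1
        linarith [not_le.1 fun k => h1 ⟨hr, k⟩]
    rw [sum_add_distrib, sum_ite_mem, inter_eq_right.2 (filter_subset _ _), sum_const, sum_const,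
      nsmul_eq_mul, nsmul_eq_mul] at e1
    have e2 : (#(P 1) : ℝ) ≤ N := by exact_mod_cast h.card_le 1
    refine le_of_mul_le_mul_right ?_ hN0
    nlinarith
  have hint : ∀ r ∈ R, ∃ d : ℝ, 0 < d ∧ ∃ a : ℝ, #(T.filter fun τ => τ 1 = r) ≤
      10 * #((T.filter fun τ => τ 1 = r).filter fun σ => a ≤ (v σ).1 ∧ (v σ).1 ≤ a + d) ∧
      ∀ x0 : ℝ, 3 * #(T.filter fun τ => τ 1 = r) ≤
        10 * #((T.filter fun τ => τ 1 = r).filter fun σ => 3 * d ≤ |(v σ).1 - x0|) := by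
    intro r hr
    refine ca_int _ (fun σ => (v σ).1) (fun σ hσ σ' hσ' e => ?_) ?_
    · obtain ⟨a1, a2⟩ := mem_filter.1 hσ
      obtain ⟨b1, b2⟩ := mem_filter.1 hσ'
      have o1 := hv σ a1 1
      have o2 := hv σ' b1 1
      have : v σ = v σ' := by
        refine Prod.ext e ?_
        rw [← o1, ← o2, a2, b2, show (v σ).1 = (v σ').1 from e]
      exact h.one σ a1 σ' b1 _ (hv σ a1) (this ▸ hv σ' b1)
    · have := (mem_filter.1 hr).2
      exact_mod_cast (show (10 : ℝ) ≤ #(T.filter fun τ => τ 1 = r) by linarith)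
  choose! d hd a ha hfar using hint
  let St : Pt → Pt × Pt → Prop := fun r w =>
    |r.1 * (xpt w.1 w.2).1 + r.2 - (xpt w.1 w.2).2| ≤ 11 / 10 * |r.1| * d r
  have hst : ∀ r ∈ R, (γ * N / 20) ^ 2 ≤ (#((P 0 ×ˢ P 2).filter (St r)) : ℝ) := by
    intro r hr
    set I := (T.filter fun τ => τ 1 = r).filter fun σ => a r ≤ (v σ).1 ∧ (v σ).1 ≤ a r + d r
      with hI
    have h1 : γ * N / 20 ≤ #I := by
      have e1 : (#(T.filter fun τ => τ 1 = r) : ℝ) ≤ 10 * #I := by exact_mod_cast ha r hr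
      linarith [(mem_filter.1 hr).2]
    have h2 : #(I ×ˢ I) ≤ #((P 0 ×ˢ P 2).filter (St r)) := by
      refine card_le_card_of_injOn (fun w => (w.1 0, w.2 2)) (fun w hw => ?_)
        fun w hw w' hw' e => ?_
      · obtain ⟨w1, w2⟩ := mem_product.1 hw
        simp only [hI, mem_filter] at w1 w2
        obtain ⟨⟨a1, a2⟩, a3, a4⟩ := w1
        obtain ⟨⟨b1, b2⟩, b3, b4⟩ := w2
        refine mem_filter.2 ⟨mem_product.2 ⟨h.mem _ a1 0, h.mem _ b1 2⟩, ?_⟩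
        obtain ⟨z1, z2⟩ := xpt_on (ts_fst_ne h a1 b1 (show (0 : Fin 3) ≠ 2 by decide))
        have o1 := hv _ a1 0
        have o2 := hv _ a1 1
        have o3 := hv _ b1 1
        have o4 := hv _ b1 2
        have c1 := (hc _ a1).2.1
        have c2 := (hc _ b1).2.2
        simp only [a2, b2, On] at c1 c2 o1 o2 o3 o4 z1 z2
        refine ca_real (x1 := (v w.1).1) (x2 := (v w.2).1) (z := (xpt (w.1 0) (w.2 2)).1) c1 c2
          ?_ ?_ (abs_le.2 ⟨by linarith, by linarith⟩)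
        · linear_combination z1 - o1 + o2
        · linear_combination z2 - o4 + o3
      · obtain ⟨w1, w2⟩ := mem_product.1 hw
        obtain ⟨w3, w4⟩ := mem_product.1 hw'
        simp only [hI, mem_filter] at w1 w2 w3 w4
        obtain ⟨e1, e2⟩ := Prod.ext_iff.1 e
        exact Prod.ext (ts_two h w1.1.1 w3.1.1 (show (0 : Fin 3) ≠ 1 by decide) e1
          (w1.1.2.trans w3.1.2.symm)) (ts_two h w2.1.1 w4.1.1 (show (2 : Fin 3) ≠ 1 by decide) e2
          (w2.1.2.trans w4.1.2.symm))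
    rw [card_product] at h2
    have h3 : (#I : ℝ) * #I ≤ #((P 0 ×ˢ P 2).filter (St r)) := by exact_mod_cast h2
    nlinarith
  obtain ⟨w, hw⟩ : ∃ w, (γ / 20) ^ 2 * (γ / 4) * N ≤ (#(R.filter fun r => St r w) : ℝ) := by
    by_contra hcon
    push Not at hcon
    have e : ∑ r ∈ R, (#((P 0 ×ˢ P 2).filter (St r)) : ℝ) =
        ∑ w ∈ P 0 ×ˢ P 2, (#(R.filter fun r => St r w) : ℝ) := by
      simp only [card_filter, Nat.cast_sum]
      exact sum_comm
    have e1 := card_nsmul_le_sum R _ _ hst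
    have e2 := sum_le_card_nsmul (P 0 ×ˢ P 2) _ _ fun w _ => (hcon w).le
    rw [e, nsmul_eq_mul] at e1
    rw [nsmul_eq_mul, card_product, Nat.cast_mul] at e2
    have e3 : (#(P 0) : ℝ) * #(P 2) ≤ N * N := by
      exact_mod_cast Nat.mul_le_mul (h.card_le 0) (h.card_le 2)
    have e4 := mul_le_mul_of_nonneg_right e3 (show 0 ≤ (γ / 20) ^ 2 * (γ / 4) * N by positivity)
    have e5 := mul_le_mul_of_nonneg_right hRc (sq_nonneg (γ * N / 20))
    have e6 : 0 < γ ^ 3 * N ^ 3 := by positivity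
    nlinarith
  set z₀ := xpt w.1 w.2 with hz
  refine ⟨T.filter fun τ => τ 1 ∈ R.filter (fun r => St r w) ∧ 3 * d (τ 1) ≤ |(v τ).1 - z₀.1|,
    filter_subset _ _, ⟨z₀, fun τ hτ z hz' => ?_⟩, ?_⟩
  · obtain ⟨a1, a2, a3⟩ := mem_filter.1 hτ
    obtain ⟨a4, a5⟩ := mem_filter.1 a2
    rw [ts_pt h a1 (hv τ a1) hz'] at a3
    have a6 : |(τ 1).1 * z₀.1 + (τ 1).2 - z₀.2| ≤ 11 / 10 * |(τ 1).1| * d (τ 1) := a5
    have a7 := hd _ a4
    have a8 : z.2 - z₀.2 = (τ 1).1 * (z.1 - z₀.1) + ((τ 1).1 * z₀.1 + (τ 1).2 - z₀.2) := by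
      have : (τ 1).1 * z.1 + (τ 1).2 = z.2 := hz' 1
      linarith
    have a9 := mul_le_mul_of_nonneg_left a3 (abs_nonneg (τ 1).1)
    have b1 := abs_add_le ((τ 1).1 * (z.1 - z₀.1)) ((τ 1).1 * z₀.1 + (τ 1).2 - z₀.2)
    have b2 := abs_sub ((τ 1).1 * (z.1 - z₀.1) + ((τ 1).1 * z₀.1 + (τ 1).2 - z₀.2))
      ((τ 1).1 * z₀.1 + (τ 1).2 - z₀.2)
    rw [add_sub_cancel_right] at b2
    rw [← a8, abs_mul] at b1 b2
    have b3 := mul_nonneg (abs_nonneg (τ 1).1) (abs_nonneg (z.1 - z₀.1))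
    refine ⟨fun e => ?_, by nlinarith, by nlinarith⟩
    rw [e, sub_self, abs_zero] at a3
    linarith
  · rw [card_eq_sum_card_fiberwise (t := R.filter fun r => St r w) (f := fun τ => τ 1)
      fun τ hτ => (mem_filter.1 hτ).2.1, Nat.cast_sum]
    refine le_trans ?_ (card_nsmul_le_sum _ _ (3 * γ / 20 * N) fun r hr => ?_)
    · rw [nsmul_eq_mul]
      nlinarith [mul_le_mul_of_nonneg_right hw (show 0 ≤ 3 * γ / 20 * N by positivity)]
    · have h1 : (3 * #(T.filter fun τ => τ 1 = r) : ℝ) ≤ 10 * #((T.filter fun τ => τ 1 = r).filter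
          fun σ => 3 * d r ≤ |(v σ).1 - z₀.1|) := by exact_mod_cast hfar r (mem_filter.1 hr).1 z₀.1
      have h2 := (mem_filter.1 (mem_filter.1 hr).1).2
      refine le_trans (by linarith) (Nat.cast_le.2 (card_le_card
        (s := (T.filter fun τ => τ 1 = r).filter fun σ => 3 * d r ≤ |(v σ).1 - z₀.1|)
        fun τ hτ => ?_))
      simp only [mem_filter] at hτ
      obtain ⟨⟨b1, b2⟩, b3⟩ := hτ
      exact mem_filter.2 ⟨mem_filter.2 ⟨b1, b2 ▸ hr, b2 ▸ b3⟩, b2⟩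

end ECub.C
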