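import Pool.Agent.P.MP_029dcd_co.F.C.Base

/-! Layer C: gluing along an approximate multiplicative relation. -/

set_option autoImplicit false

namespace ECub.C

open CubicStab Finset

theorem CUB.monoTS {𝒞 𝒟 : Finset Tri → Prop} (h : CUB 𝒞)
    (hD : ∀ k N P T, TS k N P T → 𝒟 T → 𝒞 T) : CUB 𝒟 := by
  intro k γ hγ
  obtain ⟨η, hη, N0, H⟩ := h k γ hγ
  exact ⟨η, hη, N0, fun N hN P T hT hc => H N hN P T hT (hD k N P T hT hc)⟩

theorem CUB.glueAdd {𝒞 : Finset Tri → Prop} (h : CUB 𝒞) :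
    CUB fun T => ∃ π : Fin 3 → Pt → ℝ, (∀ τ ∈ T, ∑ i, π i (τ i) = 0) ∧
      ∀ (x : Fin 3 → ℝ) (T' : Finset Tri), T' ⊆ T → (∀ τ ∈ T', ∀ i, π i (τ i) = x i) → 𝒞 T' := by
  intro k γ hγ
  obtain ⟨ε, hε, H⟩ := glue2 k γ hγ
  obtain ⟨η, hη, M0, H0⟩ := h k ε hε
  obtain ⟨η', hη', N0, H1⟩ := H η hη M0
  refine ⟨η', hη', N0, fun N hN P T hT hc hcard => ?_⟩
  obtain ⟨π, hπ, hc⟩ := hc
  refine H1 N hN ℝ P T hT hcard π hπ fun x n hn hP hx => ?_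
  exact H0 n hn _ _ (ts_sub hT (fun i => filter_subset _ _) (filter_subset _ _)
    (fun τ hτ i => mem_filter.2 ⟨hT.mem τ (mem_filter.1 hτ).1 i, (mem_filter.1 hτ).2 i⟩) hP)
    (hc x _ (filter_subset _ _) fun τ hτ => (mem_filter.1 hτ).2) hx

theorem CUB.glueApprox {𝒞 : Finset Tri → Prop} (h : CUB 𝒞) (L : ℕ) :
    CUB fun T => ∃ π : Fin 3 → Pt → ℝ, (∀ τ ∈ T, |∑ i, π i (τ i)| ≤ L) ∧
      ∀ (x : Fin 3 → ℝ) (T' : Finset Tri), T' ⊆ T →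
        (∀ τ ∈ T', ∀ i, x i ≤ π i (τ i) ∧ π i (τ i) ≤ x i + 1) → 𝒞 T' := by
  classical
  refine h.glueAdd.sub fun k γ hγ => ⟨γ / (2 * L + 4), by positivity, 0, ?_⟩
  rintro N - P T - ⟨π, hπ, hc⟩ hcard
  obtain ⟨e, -, he⟩ := exists_le_card_fiber_of_nsmul_le_card_of_maps_to
    (s := T) (t := Icc (-(L : ℤ) - 3) L) (f := fun τ => ∑ i, ⌊π i (τ i)⌋)
    (b := γ / (2 * L + 4) * (N : ℝ) ^ 2) (by
      intro τ hτ
      have h1 := abs_le.1 (hπ τ hτ)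
      have h2 := fun i => Int.floor_le (π i (τ i))
      have h3 := fun i => Int.lt_floor_add_one (π i (τ i))
      simp only [Fin.sum_univ_three] at h1 ⊢
      rw [mem_Icc]
      constructor <;> apply Int.cast_le (R := ℝ) |>.1 <;> push_cast
      · linarith [h1.1, h3 0, h3 1, h3 2]
      · linarith [h1.2, h2 0, h2 1, h2 2]) ⟨0, by simp⟩ (by
      have e : (Icc (-(L : ℤ) - 3) L).card = 2 * L + 4 := by
        rw [Int.card_Icc]
        omega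
      rw [e, nsmul_eq_mul]
      push_cast
      rw [← mul_assoc, mul_div_cancel₀ _ (by positivity)]
      exact hcard)
  refine ⟨_, filter_subset _ _, ⟨fun i p => ⌊π i p⌋ - if i = 0 then (e : ℝ) else 0,
    fun τ hτ => ?_, fun x T' hT' hx => ?_⟩, he⟩
  · have := (mem_filter.1 hτ).2
    rw [sum_sub_distrib, sum_ite_eq', if_pos (mem_univ _), ← this]
    push_cast
    exact sub_self _
  · refine hc (fun i => x i + if i = 0 then (e : ℝ) else 0) T' (hT'.trans (filter_subset _ _))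
      fun τ hτ i => ?_
    have h1 := hx τ hτ i
    have h2 := Int.floor_le (π i (τ i))
    have h3 := Int.lt_floor_add_one (π i (τ i))
    constructor <;> linarith

theorem CUB.glueMul {𝒞 : Finset Tri → Prop} (h : CUB 𝒞) (L : ℕ) :
    CUB fun T => ∃ φ : Fin 3 → Pt → ℝ, (∀ τ ∈ T, (∀ i, 0 < φ i (τ i)) ∧
      1 ≤ L * (φ 0 (τ 0) * φ 1 (τ 1) * φ 2 (τ 2)) ∧ φ 0 (τ 0) * φ 1 (τ 1) * φ 2 (τ 2) ≤ L) ∧
      ∀ (x : Fin 3 → ℝ) (T' : Finset Tri), (∀ i, 0 < x i) → T' ⊆ T →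
        (∀ τ ∈ T', ∀ i, x i ≤ φ i (τ i) ∧ φ i (τ i) ≤ 3 * x i) → 𝒞 T' := by
  refine (h.glueApprox L).mono ?_
  rintro T ⟨φ, hφ, hc⟩
  refine ⟨fun i p => Real.log (φ i p), fun τ hτ => ?_, fun x T' hT' hx =>
    hc (fun i => Real.exp (x i)) T' (fun i => Real.exp_pos _) hT' fun τ hτ i => ?_⟩
  · obtain ⟨h0, h1, h2⟩ := hφ τ hτ
    have hp : 0 < φ 0 (τ 0) * φ 1 (τ 1) * φ 2 (τ 2) := mul_pos (mul_pos (h0 0) (h0 1)) (h0 2)
    rw [Fin.sum_univ_three, ← Real.log_mul (h0 0).ne' (h0 1).ne',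
      ← Real.log_mul (mul_pos (h0 0) (h0 1)).ne' (h0 2).ne']
    generalize φ 0 (τ 0) * φ 1 (τ 1) * φ 2 (τ 2) = y at h1 h2 hp
    have h3 := Real.log_le_sub_one_of_pos hp
    have h4 := Real.log_le_sub_one_of_pos (inv_pos.2 hp)
    have h5 : y⁻¹ ≤ L := by rwa [inv_le_iff_one_le_mul₀ hp]
    rw [Real.log_inv] at h4
    rw [abs_le]
    constructor <;> linarith
  · have h0 := (hφ τ (hT' hτ)).1 i
    obtain ⟨h1, h2⟩ := hx τ hτ i
    refine ⟨(Real.le_log_iff_exp_le h0).1 h1, ((Real.log_le_iff_le_exp h0).1 h2).trans ?_⟩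
    rw [Real.exp_add, mul_comm]
    exact mul_le_mul_of_nonneg_right (Real.exp_one_lt_d9.le.trans (by norm_num))
      (Real.exp_pos _).le

end ECub.C
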