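import Pool.Agent.P.MP_029dcd_co.F.C.Base

/-! Layer C: invariance under Moebius maps of the slopes. -/

set_option autoImplicit false

namespace ECub.C

open CubicStab Finset

/-- the projective map inducing the Moebius map of the slopes -/
noncomputable def mob_psi (a b c d : ℝ) (p : Pt) : Pt :=
  ((a * p.1 + b) / (c * p.1 + d), p.2 / (c * p.1 + d))

/-- the dual map -/
def mob_L (a b c d : ℝ) (v : Pt) : Pt := (a * v.1 - c * v.2, d * v.2 - b * v.1)

theorem mob_on {a b c d : ℝ} {p : Pt} (hp : c * p.1 + d ≠ 0) (v : Pt) :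
    On (mob_psi a b c d p) v ↔ On p (mob_L a b c d v) := by
  unfold On mob_psi mob_L
  simp only
  rw [div_mul_eq_mul_div, ← add_div, div_eq_iff hp]
  constructor <;> intro h <;> linarith

theorem mob_surj {a b c d : ℝ} (hdet : a * d - b * c ≠ 0) (v : Pt) :
    ∃ w, mob_L a b c d w = v := by
  refine ⟨((d * v.1 + c * v.2) / (a * d - b * c), (b * v.1 + a * v.2) / (a * d - b * c)), ?_⟩
  unfold mob_L
  obtain ⟨D, hD⟩ : ∃ D, D = a * d - b * c := ⟨_, rfl⟩
  rw [← hD] at hdet ⊢
  ext
  · simp only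
    field_simp
    rw [hD]
    ring
  · simp only
    field_simp
    rw [hD]
    ring

theorem mob_fst {a b c d : ℝ} (hdet : a * d - b * c ≠ 0) {p q : Pt} (hp : c * p.1 + d ≠ 0)
    (hq : c * q.1 + d ≠ 0) (h : (mob_psi a b c d p).1 = (mob_psi a b c d q).1) : p.1 = q.1 := by
  unfold mob_psi at h
  simp only at h
  rw [div_eq_div_iff hp hq] at h
  have : (a * d - b * c) * (p.1 - q.1) = 0 := by linarith
  rcases mul_eq_zero.1 this with h1 | h1
  · exact absurd h1 hdet
  · linarith

theorem mob_inj {a b c d : ℝ} (hdet : a * d - b * c ≠ 0) {p q : Pt} (hp : c * p.1 + d ≠ 0)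
    (hq : c * q.1 + d ≠ 0) (h : mob_psi a b c d p = mob_psi a b c d q) : p = q := by
  have h1 := mob_fst hdet hp hq (congrArg Prod.fst h)
  have h2 := congrArg Prod.snd h
  unfold mob_psi at h2
  simp only at h2
  rw [h1, div_left_inj' hq] at h2
  exact Prod.ext h1 h2

open MvPolynomial in
/-- the pull-back of a cubic -/
noncomputable def mob_pull (a b c d : ℝ) (g : Pl) : Pl :=
  ∑ m ∈ g.support, C (coeff m g) * X 0 ^ (m 0) * (C a * X 1 + C b) ^ (m 1) *
    (C c * X 1 + C d) ^ (3 - m 0 - m 1)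

open MvPolynomial in
theorem mob_deg_le {g : Pl} (hg : g.totalDegree ≤ 3) {m : Fin 2 →₀ ℕ} (hm : m ∈ g.support) :
    m 0 + m 1 ≤ 3 := by
  have h := le_totalDegree hm
  rw [Finsupp.sum_fintype _ _ (fun _ => rfl), Fin.sum_univ_two] at h
  omega

open MvPolynomial in
theorem mob_lin_deg (a b : ℝ) : (C a * X 1 + C b : Pl).totalDegree ≤ 1 := by
  refine (totalDegree_add _ _).trans (max_le ?_ (by simp))
  refine (totalDegree_mul _ _).trans ?_
  simp

open MvPolynomial in
theorem mob_pull_deg (a b c d : ℝ) {g : Pl} (hg : g.totalDegree ≤ 3) :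
    (mob_pull a b c d g).totalDegree ≤ 3 := by
  unfold mob_pull
  refine totalDegree_finsetSum_le fun m hm => ?_
  have h3 := mob_deg_le hg hm
  have e1 : (X 0 ^ (m 0) : Pl).totalDegree ≤ m 0 := by
    refine (totalDegree_pow _ _).trans ?_
    simp
  have e2 : ((C a * X 1 + C b) ^ (m 1) : Pl).totalDegree ≤ m 1 := by
    refine (totalDegree_pow _ _).trans ?_
    simpa using Nat.mul_le_mul_left (m 1) (mob_lin_deg a b)
  have e3 : ((C c * X 1 + C d) ^ (3 - m 0 - m 1) : Pl).totalDegree ≤ 3 - m 0 - m 1 := by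
    refine (totalDegree_pow _ _).trans ?_
    simpa using Nat.mul_le_mul_left (3 - m 0 - m 1) (mob_lin_deg c d)
  have e4 := totalDegree_mul (C (coeff m g) * X 0 ^ (m 0) * (C a * X 1 + C b) ^ (m 1) : Pl)
    ((C c * X 1 + C d) ^ (3 - m 0 - m 1))
  have e5 := totalDegree_mul (C (coeff m g) * X 0 ^ (m 0) : Pl) ((C a * X 1 + C b) ^ (m 1))
  have e6 := totalDegree_mul (C (coeff m g) : Pl) (X 0 ^ (m 0))
  rw [totalDegree_C] at e6
  omega

open MvPolynomial in
theorem mob_pull_ev (a b c d : ℝ) {g : Pl} (hg : g.totalDegree ≤ 3) {p : Pt}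
    (hp : c * p.1 + d ≠ 0) :
    ev (mob_pull a b c d g) p = (c * p.1 + d) ^ 3 * ev g (mob_psi a b c d p) := by
  unfold ev mob_pull
  rw [map_sum, eval_eq' _ g, mul_sum]
  refine sum_congr rfl fun m hm => ?_
  have h3 := mob_deg_le hg hm
  obtain ⟨r, hr⟩ : ∃ r, 3 = m 0 + m 1 + r := ⟨3 - (m 0 + m 1), by omega⟩
  have hr' : 3 - m 0 - m 1 = r := by omega
  rw [hr', Fin.prod_univ_two]
  have e : (c * p.1 + d) ^ 3 = (c * p.1 + d) ^ (m 0) * (c * p.1 + d) ^ (m 1) *
      (c * p.1 + d) ^ r := by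
    rw [← pow_add, ← pow_add, ← hr]
  rw [e]
  simp only [map_mul, map_pow, map_add, eval_C, eval_X, mob_psi, Matrix.cons_val_zero,
    Matrix.cons_val_one, div_pow]
  have h0 := pow_ne_zero (m 0) hp
  have h1 := pow_ne_zero (m 1) hp
  generalize (c * p.1 + d) ^ (m 0) = A at h0 ⊢
  generalize (c * p.1 + d) ^ (m 1) = B at h1 ⊢
  field_simp

open MvPolynomial in
theorem mob_pull_ne {a b c d : ℝ} (hdet : a * d - b * c ≠ 0) {g : Pl} (hg : g.totalDegree ≤ 3)
    (h0 : g ≠ 0) : mob_pull a b c d g ≠ 0 := by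
  intro hz
  have key : g * (C a - C c * X 1) = 0 := by
    apply MvPolynomial.funext
    intro x
    rw [map_mul, map_zero]
    by_cases hx : a - c * x 1 = 0
    · have : eval x (C a - C c * X 1 : Pl) = 0 := by simpa using hx
      rw [this, mul_zero]
    · have hD : c * ((d * x 1 - b) / (a - c * x 1)) + d = (a * d - b * c) / (a - c * x 1) := by
        field_simp
        ring
      have hD0 : c * ((d * x 1 - b) / (a - c * x 1)) + d ≠ 0 := by
        rw [hD]
        exact div_ne_zero hdet hx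
      have e := mob_pull_ev a b c d hg
        (p := ((d * x 1 - b) / (a - c * x 1), x 0 * (c * ((d * x 1 - b) / (a - c * x 1)) + d))) hD0
      rw [hz, ev_zero] at e
      have e2 := (mul_eq_zero.1 e.symm).resolve_left (pow_ne_zero 3 hD0)
      have e3 : mob_psi a b c d
          ((d * x 1 - b) / (a - c * x 1), x 0 * (c * ((d * x 1 - b) / (a - c * x 1)) + d))
          = (x 1, x 0) := by
        unfold mob_psi
        ext
        · simp only
          rw [div_eq_iff hD0]
          obtain ⟨D, hD'⟩ : ∃ D, D = a - c * x 1 := ⟨_, rfl⟩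
          rw [← hD'] at hx ⊢
          field_simp
          rw [hD']
          ring
        · simp only
          rw [mul_div_assoc, div_self hD0, mul_one]
      rw [e3] at e2
      have e4 : (![x 0, x 1] : Fin 2 → ℝ) = x := by
        funext i
        fin_cases i <;> rfl
      unfold ev at e2
      simp only at e2
      rw [e4] at e2
      rw [e2, zero_mul]
  have h2 := (mul_eq_zero.1 key).resolve_left h0
  have ha := congrArg (eval ![(0 : ℝ), 0]) h2
  have hc := congrArg (eval ![(0 : ℝ), 1]) h2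
  simp at ha hc
  apply hdet
  have : c = 0 := by linarith
  rw [ha, this]
  ring

theorem CUB.mob {Φ : (Fin 3 → ℝ) → Prop} (h : CUB (All Φ)) : CUB (Mob Φ) := by
  classical
  intro k γ hγ
  obtain ⟨η, hη, N0, H⟩ := h k γ hγ
  refine ⟨η, hη, N0, fun N hN P T hT hc hcard => ?_⟩
  obtain ⟨a, b, c, d, hdet, hc⟩ := hc
  have hD : ∀ τ ∈ T, ∀ i, c * (τ i).1 + d ≠ 0 := fun τ hτ => (hc τ hτ).1
  have hT1 : TS k N (fun i => (P i).filter fun p => c * p.1 + d ≠ 0) T :=
    ts_sub hT (fun i => filter_subset _ _) Subset.rfl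
      (fun τ hτ i => mem_filter.2 ⟨hT.mem τ hτ i, hD τ hτ i⟩)
      fun i => (card_filter_le _ _).trans (hT.card_le i)
  have hinj : Set.InjOn (fun (τ : Tri) (i : Fin 3) => mob_psi a b c d (τ i)) (T : Set Tri) :=
    fun τ hτ τ' hτ' e => by
      funext i
      exact mob_inj hdet (hD τ hτ i) (hD τ' hτ' i) (congrFun e i)
  have hT' : TS k N
      (fun i => ((P i).filter fun p => c * p.1 + d ≠ 0).image (mob_psi a b c d))
      (T.image fun τ i => mob_psi a b c d (τ i)) :=
    { card_le := fun i => card_image_le.trans (hT1.card_le i)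
      disj := by
        intro i j hij
        rw [disjoint_left]
        intro p hp hq
        obtain ⟨p1, hp1, rfl⟩ := mem_image.1 hp
        obtain ⟨p2, hp2, e⟩ := mem_image.1 hq
        have := mob_inj hdet (mem_filter.1 hp2).2 (mem_filter.1 hp1).2 e
        exact disjoint_left.1 (hT1.disj i j hij) hp1 (this ▸ hp2)
      inj := by
        intro i j p hp q hq e
        obtain ⟨p1, hp1, rfl⟩ := mem_image.1 hp
        obtain ⟨p2, hp2, rfl⟩ := mem_image.1 hq
        rw [hT1.inj i j p1 hp1 p2 hp2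
          (mob_fst hdet (mem_filter.1 hp1).2 (mem_filter.1 hp2).2 e)]
      few := by
        intro v S hS hv
        have hex : ∀ p ∈ S, ∃ q, (∃ i, q ∈ (P i).filter fun p => c * p.1 + d ≠ 0) ∧
            mob_psi a b c d q = p := by
          intro p hp
          obtain ⟨i, hi⟩ := hS p hp
          obtain ⟨q, hq, e⟩ := mem_image.1 hi
          exact ⟨q, ⟨i, hq⟩, e⟩
        choose! φ hφ using hex
        have hc : (S.image φ).card = S.card := card_image_of_injOn fun p hp q hq e => by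
          rw [← (hφ p hp).2, ← (hφ q hq).2, e]
        rw [← hc]
        refine hT1.few (mob_L a b c d v) _ (fun q hq => ?_) fun q hq => ?_
        · obtain ⟨p, hp, rfl⟩ := mem_image.1 hq
          exact (hφ p hp).1
        · obtain ⟨p, hp, rfl⟩ := mem_image.1 hq
          obtain ⟨i, hi⟩ := (hφ p hp).1
          rw [← mob_on (mem_filter.1 hi).2, (hφ p hp).2]
          exact hv p hp
      mem := by
        intro τ hτ i
        obtain ⟨ρ, hρ, rfl⟩ := mem_image.1 hτ
        exact mem_image_of_mem _ (hT1.mem ρ hρ i)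
      col := by
        intro τ hτ
        obtain ⟨ρ, hρ, rfl⟩ := mem_image.1 hτ
        obtain ⟨v, hv⟩ := hT.col ρ hρ
        obtain ⟨w, rfl⟩ := mob_surj hdet v
        exact ⟨w, fun i => (mob_on (hD ρ hρ i) w).2 (hv i)⟩
      one := by
        intro τ hτ τ' hτ' v hv hv'
        obtain ⟨ρ, hρ, rfl⟩ := mem_image.1 hτ
        obtain ⟨ρ', hρ', rfl⟩ := mem_image.1 hτ'
        rw [hT.one ρ hρ ρ' hρ' (mob_L a b c d v) (fun i => (mob_on (hD ρ hρ i) v).1 (hv i))
          fun i => (mob_on (hD ρ' hρ' i) v).1 (hv' i)] }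
  obtain ⟨g, h0, h3, hf⟩ := H N hN _ _ hT' (by
    intro τ hτ
    obtain ⟨ρ, hρ, rfl⟩ := mem_image.1 hτ
    exact (hc ρ hρ).2) (by rwa [card_image_of_injOn hinj])
  refine ⟨mob_pull a b c d g, mob_pull_ne hdet h3 h0, mob_pull_deg a b c d h3,
    hf.trans (Nat.cast_le.2 (le_trans (card_le_card ?_)
    (card_image_le (f := fun (τ : Tri) (i : Fin 3) => mob_psi a b c d (τ i)))))⟩
  intro τ hτ
  unfold cov at hτ ⊢
  obtain ⟨a1, b1⟩ := mem_filter.1 hτ
  obtain ⟨ρ, hρ, rfl⟩ := mem_image.1 a1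
  refine mem_image_of_mem _ (mem_filter.2 ⟨hρ, fun i => ?_⟩)
  rw [mob_pull_ev a b c d h3 (hD ρ hρ i), b1 i, mul_zero]

end ECub.C
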