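import Pool.Agent.P.MP_029dcd_co.F.C.Sep
import Pool.Agent.P.MP_029dcd_co.F.C.Glue
import Pool.Agent.P.MP_029dcd_co.F.C.CoreA

/-! Layer C: the degenerate positions of the slopes. -/

set_option autoImplicit false

namespace ECub.C

open CubicStab Finset

theorem abs_sub_ge (a b : ℝ) : |b| - |a| ≤ |a - b| := by
  rw [abs_sub_comm]
  exact abs_sub_abs_le_abs_sub b a

theorem sep_core {t : Fin 3 → ℝ} (h0 : 100 * |t 0| ≤ |t 1|) (h2 : 100 * |t 1| ≤ |t 2|)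
    (h1 : 1 ≤ |t 1|) (h3 : |t 1| ≤ 3) : Sep (1 / 4) t := by
  have e0 : max 1 |t 0| = 1 := max_eq_left (by linarith)
  have e1 : max 1 |t 1| = |t 1| := max_eq_right h1
  have e2 : max 1 |t 2| = |t 2| := max_eq_right (by linarith)
  refine sep_of ?_ ?_ ?_ <;> simp only [e0, e1, e2]
  · linarith [abs_sub_ge (t 0) (t 1)]
  · linarith [abs_sub_ge (t 0) (t 2)]
  · nlinarith [abs_sub_ge (t 1) (t 2)]

theorem far_prod {a u w y x : ℝ} (ha : 0 < a) (hu : 0 < u) (h1 : 3 / 5 * (a * u) ≤ w)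
    (h2 : w ≤ 7 / 5 * (a * u)) (hy : |y - w| ≤ a * u / 100) (hx : |x - u| ≤ u / 50) :
    0 < y ∧ 0 < x ∧ 1 ≤ 2 * (y⁻¹ * a * x) ∧ y⁻¹ * a * x ≤ 2 := by
  have hau := mul_pos ha hu
  obtain ⟨y1, y2⟩ := abs_le.1 hy
  obtain ⟨x1, x2⟩ := abs_le.1 hx
  have hy0 : 0 < y := by linarith
  have e : y⁻¹ * a * x = a * x / y := by ring
  refine ⟨hy0, by linarith, ?_, ?_⟩
  · rw [e, ← mul_div_assoc, le_div_iff₀ hy0]
    nlinarith
  · rw [e, div_le_iff₀ hy0]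
    nlinarith

theorem cub_core (h : CUB (All StdS)) : CUB (All CoreS) := by
  have h1 : CUB fun T => All CoreS T ∧ ∃ z₀, Far z₀ T := by
    refine ((cub_sep h (θ := 1 / 4) (by norm_num)).aff.glueMul 2).monoTS ?_
    rintro k N P T hT ⟨hc, z₀, hz⟩
    refine ⟨![fun p => |p.1 * z₀.1 + p.2 - z₀.2|⁻¹, fun p => |p.1|,
      fun p => |(z₀.2 - p.2) / p.1 - z₀.1|], fun τ hτ => ?_, fun x T' hx hT' hφ => ?_⟩
    · obtain ⟨z, hon⟩ := hT.col τ hτ
      obtain ⟨a1, a2, a3⟩ := hz τ hτ z hon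
      obtain ⟨b1, b2, b3⟩ := hc τ hτ
      have ha : 0 < |(τ 1).1| := abs_pos.2 b1
      have hu : 0 < |z.1 - z₀.1| := abs_pos.2 (sub_ne_zero.2 a1)
      have h2 : 0 < |(τ 2).1| := by linarith
      have o0 : (τ 0).1 * z.1 + (τ 0).2 = z.2 := hon 0
      have o2 : (τ 2).1 * z.1 + (τ 2).2 = z.2 := hon 2
      obtain ⟨c1, c2, c3, c4⟩ := far_prod (y := |(τ 0).1 * z₀.1 + (τ 0).2 - z₀.2|)
        (x := |(z₀.2 - (τ 2).2) / (τ 2).1 - z₀.1|) ha hu a2 a3 (by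
          refine (abs_abs_sub_abs_le_abs_sub _ _).trans ?_
          rw [show (τ 0).1 * z₀.1 + (τ 0).2 - z₀.2 - (z.2 - z₀.2) = -((τ 0).1 * (z.1 - z₀.1)) by
            linear_combination o0, abs_neg, abs_mul]
          nlinarith) (by
          refine (abs_abs_sub_abs_le_abs_sub _ _).trans ?_
          have h3 := abs_pos.1 h2
          rw [show (z₀.2 - (τ 2).2) / (τ 2).1 - z₀.1 - (z.1 - z₀.1) = -((z.2 - z₀.2) / (τ 2).1) by
            field_simp; linear_combination -o2, abs_neg, abs_div, div_le_iff₀ h2]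
          nlinarith)
      refine ⟨fun i => ?_, by simpa using c3, by simpa using c4⟩
      fin_cases i
      · exact inv_pos.2 c1
      · exact ha
      · exact c2
    · refine ⟨(x 1)⁻¹, 0, inv_ne_zero (hx 1).ne', fun τ hτ => ?_⟩
      obtain ⟨b1, b2, b3⟩ := hc τ (hT' hτ)
      obtain ⟨d1, d2⟩ : x 1 ≤ |(τ 1).1| ∧ |(τ 1).1| ≤ 3 * x 1 := hφ τ hτ 1
      have hp := inv_pos.2 (hx 1)
      refine sep_core ?_ ?_ ?_ ?_ <;> simp only [add_zero, abs_mul, abs_of_pos hp]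
      · nlinarith
      · nlinarith
      · exact (le_inv_mul_iff₀ (hx 1)).2 (by linarith)
      · exact (inv_mul_le_iff₀ (hx 1)).2 (by linarith)
  refine h1.sub fun k γ hγ => ?_
  obtain ⟨γ', hγ', N1, H⟩ := core_sub k γ hγ
  refine ⟨γ', hγ', N1, fun N hN P T hT hc hcard => ?_⟩
  obtain ⟨T', hs, hz, hcard'⟩ := H N hN P T hT hc hcard
  exact ⟨T', hs, ⟨hc.sub hs, hz⟩, hcard'⟩

theorem sep_two {t : Fin 3 → ℝ} (h : TwoS t) (h1 : 1 ≤ |t 0|) (h3 : |t 0| ≤ 3)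
    (h4 : |t 1| ≤ 100 * |t 0|) : Sep (1 / 1000) t := by
  obtain ⟨a, b, c, d⟩ := h
  have e0 : max 1 |t 0| ≤ 3 := max_le (by norm_num) h3
  have e1 : max 1 |t 1| ≤ 300 := max_le (by norm_num) (by linarith)
  have e2 : max 1 |t 2| = |t 2| := max_eq_right (by linarith)
  have p0 : 0 ≤ max 1 |t 0| := le_max_of_le_left zero_le_one
  have p1 : 0 ≤ max 1 |t 1| := le_max_of_le_left zero_le_one
  refine sep_of ?_ ?_ ?_
  · rw [abs_of_neg a] at h1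
    rw [abs_of_neg (show t 0 - t 1 < 0 by linarith)]
    nlinarith
  · rw [e2]
    nlinarith [abs_sub_ge (t 0) (t 2)]
  · rw [e2]
    nlinarith [abs_sub_ge (t 1) (t 2)]

theorem cub_two (h : CUB (All StdS)) : CUB (All TwoS) := by
  have h1 : CUB (All fun t => TwoS t ∧ |t 1| ≤ 100 * |t 0| ∧ |t 0| ≤ 100 * |t 1|) := by
    refine ((cub_sep h (θ := 1 / 1000) (by norm_num)).aff.glueMul 100).mono fun T hc => ?_
    refine ⟨![fun p => |p.1|, fun p => |p.1|⁻¹, fun _ => 1], fun τ hτ => ?_,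
      fun x T' hx hT' hφ => ?_⟩
    · obtain ⟨⟨a, b, -, -⟩, c, d⟩ := hc τ hτ
      have p0 : 0 < |(τ 0).1| := abs_pos.2 a.ne
      have p1 : 0 < |(τ 1).1| := abs_pos.2 b.ne'
      refine ⟨fun i => ?_, ?_, ?_⟩
      · fin_cases i
        · exact p0
        · exact inv_pos.2 p1
        · exact one_pos
      · change 1 ≤ ((100 : ℕ) : ℝ) * (|(τ 0).1| * |(τ 1).1|⁻¹ * 1)
        rw [mul_one, ← mul_assoc, ← div_eq_mul_inv, le_div_iff₀ p1]
        push_cast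
        linarith
      · change |(τ 0).1| * |(τ 1).1|⁻¹ * 1 ≤ ((100 : ℕ) : ℝ)
        rw [mul_one, ← div_eq_mul_inv, div_le_iff₀ p1]
        push_cast
        linarith
    · refine ⟨(x 0)⁻¹, 0, inv_ne_zero (hx 0).ne', fun τ hτ => ?_⟩
      obtain ⟨⟨a, b, c, d⟩, e, -⟩ := hc τ (hT' hτ)
      obtain ⟨d1, d2⟩ : x 0 ≤ |(τ 0).1| ∧ |(τ 0).1| ≤ 3 * x 0 := hφ τ hτ 0
      have hp := inv_pos.2 (hx 0)
      refine sep_two ⟨?_, ?_, ?_, ?_⟩ ?_ ?_ ?_ <;> simp only [add_zero, abs_mul, abs_of_pos hp]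
      · exact mul_neg_of_pos_of_neg hp a
      · exact mul_pos hp b
      · nlinarith
      · nlinarith
      · exact (le_inv_mul_iff₀ (hx 0)).2 (by linarith)
      · exact (inv_mul_le_iff₀ (hx 0)).2 (by linarith)
      · nlinarith
  refine (h1.or ((cub_core h).or ((cub_core h).perm (Equiv.swap 0 1)))).imp fun t ht => ?_
  by_cases c1 : 100 * |t 0| ≤ |t 1|
  · exact Or.inr (Or.inl ⟨ht.2.1.ne', c1, ht.2.2.2⟩)
  by_cases c2 : 100 * |t 1| ≤ |t 0|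
  · exact Or.inr (Or.inr ⟨ht.1.ne, c2, ht.2.2.1⟩)
  exact Or.inl ⟨ht, (not_le.1 c1).le, (not_le.1 c2).le⟩

theorem sep_ord {t : Fin 3 → ℝ} (h : OrdS t) (h01 : 1 / 100 ≤ t 1 - t 0)
    (h12 : 1 / 100 ≤ t 2 - t 1) (h02 : -t 0 ≤ 100 ∨ t 2 ≤ 100) : Sep (1 / 200) t := by
  obtain ⟨a, b, c, d⟩ := h
  have e1 : max 1 |t 1| = 1 := max_eq_left (by rw [abs_of_pos b]; linarith)
  have e2 : max 1 |t 2| = t 2 := by
    rw [abs_of_pos (by linarith)]
    exact max_eq_right d.le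
  have e0 : max 1 |t 0| = 1 ∧ -t 0 ≤ 1 ∨ max 1 |t 0| = -t 0 ∧ 1 ≤ -t 0 := by
    rw [abs_of_neg a]
    exact (le_total (-t 0) 1).imp (fun h => ⟨max_eq_left h, h⟩) fun h => ⟨max_eq_right h, h⟩
  refine sep_of ?_ ?_ ?_
  · rw [e1, abs_of_neg (show t 0 - t 1 < 0 by linarith)]
    rcases e0 with ⟨e, e'⟩ | ⟨e, e'⟩ <;> rw [e] <;> linarith
  · rw [e2, abs_of_neg (show t 0 - t 2 < 0 by linarith)]
    rcases e0 with ⟨e, e'⟩ | ⟨e, e'⟩ <;> rw [e]
    · linarith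
    · rcases h02 with h | h <;> nlinarith
  · rw [e1, e2, abs_of_neg (show t 1 - t 2 < 0 by linarith)]
    rcases le_total (t 2) 2 with h | h <;> linarith

theorem cub_ord (h : CUB (All StdS)) : CUB (All OrdS) := by
  have h2 := cub_two h
  have h3 : CUB (All fun t => TwoS fun i => 1 * t (Equiv.addRight 1 i) + -1) :=
    (h2.perm (Equiv.addRight 1)).aff.mono fun T hT => ⟨1, -1, one_ne_zero, hT⟩
  have h4 : CUB (All fun t => (∀ i, 1 * t i + 0 ≠ 0) ∧ TwoS fun i =>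
      (0 * t (Equiv.addRight 2 i) + -1) / (1 * t (Equiv.addRight 2 i) + 0)) :=
    (h2.perm (Equiv.addRight 2)).mob.mono fun T hT => ⟨0, -1, 1, 0, by norm_num, hT⟩
  refine ((cub_sep h (θ := 1 / 200) (by norm_num)).or (h2.or (h3.or h4))).imp fun t ht => ?_
  obtain ⟨a, b, c, d⟩ := id ht
  by_cases c1 : t 1 - t 0 < 1 / 100
  · refine Or.inr (Or.inl ⟨a, b, ?_, ?_⟩)
    · rw [abs_of_neg a, abs_of_pos (show 0 < t 2 by linarith)]
      linarith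
    · rw [abs_of_pos b, abs_of_pos (show 0 < t 2 by linarith)]
      linarith
  by_cases c2 : t 2 - t 1 < 1 / 100
  · refine Or.inr (Or.inr (Or.inl ?_))
    change 1 * t 1 + -1 < 0 ∧ 0 < 1 * t 2 + -1 ∧ 100 * |1 * t 1 + -1| ≤ |1 * t 0 + -1| ∧
      100 * |1 * t 2 + -1| ≤ |1 * t 0 + -1|
    rw [abs_of_neg (show 1 * t 1 + -1 < 0 by linarith),
      abs_of_neg (show 1 * t 0 + -1 < 0 by linarith),
      abs_of_pos (show 0 < 1 * t 2 + -1 by linarith)]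
    refine ⟨?_, ?_, ?_, ?_⟩ <;> linarith
  by_cases c3 : -t 0 ≤ 100 ∨ t 2 ≤ 100
  · exact Or.inl (sep_ord ht (not_lt.1 c1) (not_lt.1 c2) c3)
  obtain ⟨c3, c4⟩ := not_or.1 c3
  have p2 : 0 < t 2 := by linarith
  refine Or.inr (Or.inr (Or.inr ⟨fun i => ?_, ?_⟩))
  · rw [one_mul, add_zero]
    fin_cases i
    · exact a.ne
    · exact b.ne'
    · exact p2.ne'
  · change (0 * t 2 + -1) / (1 * t 2 + 0) < 0 ∧ 0 < (0 * t 0 + -1) / (1 * t 0 + 0) ∧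
      100 * |(0 * t 2 + -1) / (1 * t 2 + 0)| ≤ |(0 * t 1 + -1) / (1 * t 1 + 0)| ∧
      100 * |(0 * t 0 + -1) / (1 * t 0 + 0)| ≤ |(0 * t 1 + -1) / (1 * t 1 + 0)|
    simp only [zero_mul, zero_add, one_mul, add_zero, abs_div, abs_neg, abs_one]
    rw [abs_of_pos p2, abs_of_pos b, abs_of_neg a, mul_one_div, mul_one_div]
    refine ⟨div_neg_of_neg_of_pos (by norm_num) p2, div_pos_of_neg_of_neg (by norm_num) a, ?_, ?_⟩
    · rw [div_le_div_iff₀ p2 b]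
      linarith [not_le.1 c4]
    · rw [div_le_div_iff₀ (by linarith) b]
      linarith [not_le.1 c3]

theorem cub_ord2 (h : CUB (All StdS)) : CUB Ord2 := by
  refine (cub_ord h).aff.mono ?_
  rintro T ⟨u, w, huw, hT⟩
  have hp : 0 < w - u := sub_pos.2 huw
  refine ⟨(w - u)⁻¹, -((w - u)⁻¹ * u), inv_ne_zero hp.ne', fun τ hτ => ?_⟩
  obtain ⟨a, b, c, d⟩ := hT τ hτ
  have e : ∀ x, (w - u)⁻¹ * x + -((w - u)⁻¹ * u) = (x - u) / (w - u) := fun x => by ring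
  refine ⟨?_, ?_, ?_, ?_⟩ <;> simp only [e]
  · exact div_neg_of_neg_of_pos (by linarith) hp
  · exact div_pos (by linarith) hp
  · exact (div_lt_one hp).2 (by linarith)
  · exact (one_lt_div hp).2 (by linarith)

end ECub.C
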