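import Pool.Agent.P.MP_029dcd_co.F.C.Base
import Pool.Agent.P.MP_029dcd_co.Sector

/-! Layer C: from a point set with many rich pairs to an ordered triple system. -/

set_option autoImplicit false

namespace ECub.C

open CubicStab Finset

/-- an increasing triple of points of `A` on the line `v` -/
def pts_Good (A : Finset Pt) (v : Pt) (τ : Tri) : Prop :=
  (∀ i, τ i ∈ A ∧ On (τ i) v) ∧ (τ 0).1 < (τ 1).1 ∧ (τ 1).1 < (τ 2).1

theorem pts_sort {A : Finset Pt} {v a b c : Pt} (ha : a ∈ A ∧ On a v) (hb : b ∈ A ∧ On b v)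
    (hc : c ∈ A ∧ On c v) (h1 : a.1 ≠ b.1) (h2 : a.1 ≠ c.1) (h3 : b.1 ≠ c.1) :
    ∃ τ, pts_Good A v τ := by
  have mk : ∀ x y z : Pt, (x ∈ A ∧ On x v) → (y ∈ A ∧ On y v) → (z ∈ A ∧ On z v) →
      x.1 < y.1 → y.1 < z.1 → ∃ τ, pts_Good A v τ := fun x y z hx hy hz h h' =>
    ⟨![x, y, z], fun i => by fin_cases i <;> assumption, h, h'⟩
  rcases h1.lt_or_gt with h1 | h1 <;> rcases h2.lt_or_gt with h2 | h2 <;>
    rcases h3.lt_or_gt with h3 | h3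
  · exact mk a b c ha hb hc h1 h3
  · exact mk a c b ha hc hb h2 h3
  · exact mk a b c ha hb hc h1 h3
  · exact mk c a b hc ha hb h2 h1
  · exact mk b a c hb ha hc h1 h2
  · exact mk b a c hb ha hc h1 h2
  · exact mk b c a hb hc ha h3 h2
  · exact mk c b a hc hb ha h3 h1

theorem pts_ne {A : Finset Pt} {v : Pt} {τ : Tri} (h : pts_Good A v τ) : τ 0 ≠ τ 1 :=
  fun e => h.2.1.ne (congrArg Prod.fst e)

theorem pts_tri {k : ℕ} {A : Finset Pt} (hi : ∀ p ∈ A, ∀ q ∈ A, p.1 = q.1 → p = q)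
    (hk : ∀ (v : Pt) (S : Finset Pt), S ⊆ A → (∀ p ∈ S, On p v) → S.card ≤ k)
    (R : Finset (Pt × Pt)) (hR : ∀ q ∈ R, q.1 ∈ A ∧ q.2 ∈ A ∧ q.1 ≠ q.2 ∧
      ∃ z ∈ A, z ≠ q.1 ∧ z ≠ q.2 ∧ ∃ v, On q.1 v ∧ On q.2 v ∧ On z v) :
    ∃ T : Finset Tri, (∀ τ ∈ T, ∃ v, pts_Good A v τ) ∧
      (∀ τ ∈ T, ∀ τ' ∈ T, ∀ v, (∀ i, On (τ i) v) → (∀ i, On (τ' i) v) → τ = τ') ∧
      R.card ≤ k * k * T.card := by
  classical
  have h1 : ∀ q : Pt × Pt, ∃ v, q ∈ R → On q.1 v ∧ On q.2 v ∧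
      pts_Good A v (Classical.epsilon (pts_Good A v)) := by
    intro q
    by_cases hq : q ∈ R
    · obtain ⟨a, b, c, z, hz, d, e, v, f, g, h⟩ := hR q hq
      exact ⟨v, fun _ => ⟨f, g, Classical.epsilon_spec (pts_sort ⟨a, f⟩ ⟨b, g⟩ ⟨hz, h⟩
        (fun x => c (hi _ a _ b x)) (fun x => d (hi _ a _ hz x).symm)
        fun x => e (hi _ b _ hz x).symm)⟩⟩
    · exact ⟨0, fun h => absurd h hq⟩
  choose v hv using h1
  have h2 : ∀ q ∈ R, ∀ w, (∀ i, On (Classical.epsilon (pts_Good A (v q)) i) w) → v q = w :=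
    fun q hq w hw => line_unique (pts_ne (hv q hq).2.2) ((hv q hq).2.2.1 0).2
      ((hv q hq).2.2.1 1).2 (hw 0) (hw 1)
  refine ⟨R.image fun q => Classical.epsilon (pts_Good A (v q)), ?_, ?_, ?_⟩
  · intro τ hτ
    obtain ⟨q, hq, rfl⟩ := mem_image.1 hτ
    exact ⟨_, (hv q hq).2.2⟩
  · intro τ hτ τ' hτ' w hw hw'
    obtain ⟨q, hq, rfl⟩ := mem_image.1 hτ
    obtain ⟨q', hq', rfl⟩ := mem_image.1 hτ'
    rw [h2 q hq w hw, h2 q' hq' w hw']
  · refine card_le_mul_card_image _ _ fun τ hτ => ?_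
    obtain ⟨q, hq, rfl⟩ := mem_image.1 hτ
    have h3 := hk (v q) (A.filter fun p => On p (v q)) (filter_subset _ _)
      fun p hp => (mem_filter.1 hp).2
    refine le_trans (card_le_card (t := (A.filter fun p => On p (v q)) ×ˢ
      (A.filter fun p => On p (v q))) fun q' hq' => ?_) ?_
    · obtain ⟨a, b⟩ := mem_filter.1 hq'
      have e : v q' = v q := h2 q' a _ fun i => by
        rw [b]
        exact ((hv q hq).2.2.1 i).2
      exact mem_product.2 ⟨mem_filter.2 ⟨(hR q' a).1, e ▸ (hv q' a).1⟩,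
        mem_filter.2 ⟨(hR q' a).2.1, e ▸ (hv q' a).2.1⟩⟩
    · rw [card_product]
      exact Nat.mul_le_mul h3 h3

theorem pts_blocks {A : Finset Pt} (hi : ∀ p ∈ A, ∀ q ∈ A, p.1 = q.1 → p = q) (m : ℕ)
    (hm : 0 < m) : ∃ β : Pt → ℕ, (∀ p q, p.1 ≤ q.1 → β p ≤ β q) ∧ (∀ p ∈ A, β p < m) ∧
      ∀ b, (A.filter fun p => β p = b).card ≤ A.card / m + 1 := by
  classical
  let r : Pt → ℕ := fun p => (A.filter fun q => q.1 < p.1).card
  have r1 : ∀ p q, p.1 ≤ q.1 → r p ≤ r q := fun p q h =>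
    card_le_card fun x hx => mem_filter.2 ⟨(mem_filter.1 hx).1, (mem_filter.1 hx).2.trans_le h⟩
  have r2 : ∀ p ∈ A, ∀ q, p.1 < q.1 → r p < r q := fun p hp q h =>
    card_lt_card ⟨fun x hx => mem_filter.2 ⟨(mem_filter.1 hx).1, (mem_filter.1 hx).2.trans h⟩,
      fun hs => lt_irrefl _ (mem_filter.1 (hs (mem_filter.2 ⟨hp, h⟩))).2⟩
  have r3 : ∀ p ∈ A, r p < A.card := fun p hp =>
    card_lt_card ⟨filter_subset _ _, fun hs => lt_irrefl _ (mem_filter.1 (hs hp)).2⟩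
  refine ⟨fun p => r p / (A.card / m + 1), fun p q h => Nat.div_le_div_right (r1 p q h),
    fun p hp => ?_, fun b => ?_⟩
  · rw [Nat.div_lt_iff_lt_mul (Nat.succ_pos _)]
    exact (r3 p hp).trans (Nat.lt_mul_div_succ _ hm)
  · refine le_trans (card_le_card_of_injOn (fun p => r p % (A.card / m + 1))
      (t := range (A.card / m + 1)) (fun p _ => mem_coe.2 (mem_range.2
        (Nat.mod_lt _ (Nat.succ_pos _)))) fun p hp q hq e => ?_) (card_range _).le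
    obtain ⟨p1, p2⟩ := mem_filter.1 hp
    obtain ⟨q1, q2⟩ := mem_filter.1 hq
    have e' : r p = r q := by
      rw [← Nat.div_add_mod (r p) (A.card / m + 1), ← Nat.div_add_mod (r q) (A.card / m + 1)]
      exact congrArg₂ (· + ·) (congrArg _ (p2.trans q2.symm)) e
    rcases lt_trichotomy p.1 q.1 with h | h | h
    · exact absurd e' (r2 p p1 q h).ne
    · exact hi p p1 q q1 h
    · exact absurd e' (r2 q q1 p h).ne'

theorem pts_bad {A : Finset Pt} {T : Finset Tri} (h1 : ∀ τ ∈ T, ∃ v, pts_Good A v τ)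
    (h2 : ∀ τ ∈ T, ∀ τ' ∈ T, ∀ v, (∀ i, On (τ i) v) → (∀ i, On (τ' i) v) → τ = τ')
    (β : Pt → ℕ) (B : ℕ) (hB : ∀ b, (A.filter fun p => β p = b).card ≤ B) (i j : Fin 3)
    (hij : ∀ τ ∈ T, τ i ≠ τ j) :
    (T.filter fun τ => β (τ i) = β (τ j)).card ≤ B * A.card := by
  classical
  refine card_le_mul_card_image_of_maps_to (f := fun τ => τ i) (fun τ hτ => ?_) B fun p _ => ?_
  · obtain ⟨v, hv⟩ := h1 τ (mem_filter.1 hτ).1
    exact (hv.1 i).1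
  refine le_trans (card_le_card_of_injOn (fun τ => τ j) (fun τ hτ => ?_)
    fun τ hτ τ' hτ' e => ?_) (hB (β p))
  · obtain ⟨a, b⟩ := mem_filter.1 hτ
    obtain ⟨v, hv⟩ := h1 τ (mem_filter.1 a).1
    exact mem_coe.2 (mem_filter.2 ⟨(hv.1 j).1, by rw [← (mem_filter.1 a).2, b]⟩)
  · obtain ⟨a, b⟩ := mem_filter.1 hτ
    obtain ⟨a', b'⟩ := mem_filter.1 hτ'
    obtain ⟨v, hv⟩ := h1 τ (mem_filter.1 a).1
    obtain ⟨v', hv'⟩ := h1 τ' (mem_filter.1 a').1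
    have e1 : τ i = τ' i := b.trans b'.symm
    have e2 : τ j = τ' j := e
    have : v = v' := line_unique (hij τ (mem_filter.1 a).1) (hv.1 i).2 (hv.1 j).2
      (e1 ▸ (hv'.1 i).2) (e2 ▸ (hv'.1 j).2)
    exact h2 τ (mem_filter.1 a).1 τ' (mem_filter.1 a').1 v (fun i => (hv.1 i).2)
      fun i => this ▸ (hv'.1 i).2

theorem pts_sys {k : ℕ} {A : Finset Pt} (hi : ∀ p ∈ A, ∀ q ∈ A, p.1 = q.1 → p = q)
    (hk : ∀ (v : Pt) (S : Finset Pt), S ⊆ A → (∀ p ∈ S, On p v) → S.card ≤ k)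
    {T : Finset Tri} (h1 : ∀ τ ∈ T, ∃ v, pts_Good A v τ)
    (h2 : ∀ τ ∈ T, ∀ τ' ∈ T, ∀ v, (∀ i, On (τ i) v) → (∀ i, On (τ' i) v) → τ = τ')
    (β : Pt → ℕ) (hβ : ∀ p q, p.1 ≤ q.1 → β p ≤ β q) (b : Fin 3 → ℕ) (b1 : b 0 < b 1)
    (b2 : b 1 < b 2) (hb : ∀ τ ∈ T, ∀ i, β (τ i) = b i) (hne : T.Nonempty) :
    TS k A.card (fun i => A.filter fun p => β p = b i) T ∧ Ord2 T := by
  classical
  have hlt : ∀ p q : Pt, β p < β q → p.1 < q.1 := fun p q h =>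
    lt_of_not_ge fun h' => absurd (hβ q p h') (not_le.2 h)
  have hsep : ∀ i j, b i < b j → ∃ u : ℝ, (∀ τ ∈ T, (τ i).1 < u) ∧ ∀ τ ∈ T, u < (τ j).1 := by
    intro i j hij
    obtain ⟨u, u1, u2⟩ := Finset.exists_between (s := T.image fun τ => (τ i).1)
      (t := T.image fun τ => (τ j).1) (hne.image _) (hne.image _) (by
        intro x hx y hy
        obtain ⟨τ, hτ, rfl⟩ := mem_image.1 hx
        obtain ⟨τ', hτ', rfl⟩ := mem_image.1 hy
        exact hlt _ _ (by rwa [hb τ hτ, hb τ' hτ']))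
    exact ⟨u, fun τ hτ => u1 _ (mem_image_of_mem _ hτ), fun τ hτ => u2 _ (mem_image_of_mem _ hτ)⟩
  obtain ⟨u, u1, u2⟩ := hsep 0 1 b1
  obtain ⟨w, w1, w2⟩ := hsep 1 2 b2
  obtain ⟨τ0, h0⟩ := hne
  refine ⟨⟨fun i => card_filter_le _ _, fun i j hij => ?_, fun i j p hp q hq =>
    hi p (mem_filter.1 hp).1 q (mem_filter.1 hq).1, fun v S hS => hk v S fun p hp =>
    (hS p hp).elim fun i hi => (mem_filter.1 hi).1, fun τ hτ i => ?_, fun τ hτ => ?_, h2⟩,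
    u, w, (u2 τ0 h0).trans (w1 τ0 h0), fun τ hτ => ⟨u1 τ hτ, u2 τ hτ, w1 τ hτ, w2 τ hτ⟩⟩
  · refine disjoint_left.2 fun p hp hq => ?_
    have e : b i = b j := (mem_filter.1 hp).2.symm.trans (mem_filter.1 hq).2
    fin_cases i <;> fin_cases j <;> first | exact hij rfl | (simp at e; omega)
  · obtain ⟨v, hv⟩ := h1 τ hτ
    exact mem_filter.2 ⟨(hv.1 i).1, hb τ hτ i⟩
  · exact (h1 τ hτ).imp fun v hv i => (hv.1 i).2

open Classical in
theorem pts (h : CUB Ord2) (k : ℕ) (δ : ℝ) (hδ : 0 < δ) : ∃ c : ℝ, 0 < c ∧ ∀ A : Finset Pt,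
    (∀ p ∈ A, ∀ q ∈ A, p.1 = q.1 → p = q) →
    (∀ (v : Pt) (S : Finset Pt), S ⊆ A → (∀ p ∈ S, On p v) → S.card ≤ k) →
    δ * (A.card : ℝ) ^ 2 ≤ (((A ×ˢ A).filter fun q : Pt × Pt => q.1 ≠ q.2 ∧
      ∃ z ∈ A, z ≠ q.1 ∧ z ≠ q.2 ∧ ∃ v, On q.1 v ∧ On q.2 v ∧ On z v).card : ℝ) →
    ∃ f : Pl, f ≠ 0 ∧ f.totalDegree ≤ 3 ∧
      c * (A.card : ℝ) ≤ ((A.filter fun p => ev f p = 0).card : ℝ) := by
  obtain ⟨m, hm⟩ := exists_nat_ge (8 * ((k : ℝ) + 1) ^ 2 / δ)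
  have hm0 : (0 : ℝ) < m := lt_of_lt_of_le (by positivity) hm
  have hm1 : 0 < m := by exact_mod_cast hm0
  rw [div_le_iff₀ hδ] at hm
  obtain ⟨η, hη, N0, H⟩ := h k (δ / (2 * ((k : ℝ) + 1) ^ 2 * (m : ℝ) ^ 3)) (by positivity)
  refine ⟨min η (1 / ((N0 + m : ℕ) : ℝ)), lt_min hη (by positivity), fun A hi hk hR => ?_⟩
  by_cases hn : A.card < N0 + m
  · rcases A.eq_empty_or_nonempty with rfl | ⟨p, hp⟩
    · exact ⟨Lp 0, Lp_ne_zero _, (totalDegree_Lp_le _).trans (by norm_num), by simp⟩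
    refine ⟨Lp (0, p.2), Lp_ne_zero _, (totalDegree_Lp_le _).trans (by norm_num), ?_⟩
    have h1 : 1 ≤ (A.filter fun q => ev (Lp (0, p.2)) q = 0).card :=
      card_pos.2 ⟨p, mem_filter.2 ⟨hp, ev_Lp_eq_zero.2 (by simp [On])⟩⟩
    refine le_trans (mul_le_mul_of_nonneg_right (min_le_right _ _) (Nat.cast_nonneg _))
      (le_trans ?_ (by exact_mod_cast h1 : (1 : ℝ) ≤ _))
    rw [one_div, inv_mul_le_one₀ (by positivity)]
    exact_mod_cast hn.le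
  have hn0 : (0 : ℝ) < A.card := by exact_mod_cast (show 0 < A.card by omega)
  obtain ⟨T, t1, t2, t3⟩ := pts_tri hi hk _ fun q hq =>
    ⟨(mem_product.1 (mem_filter.1 hq).1).1, (mem_product.1 (mem_filter.1 hq).1).2,
      (mem_filter.1 hq).2⟩
  obtain ⟨β, c1, c2, c3⟩ := pts_blocks hi m hm1
  have d1 := pts_bad t1 t2 β _ c3 0 1 fun τ hτ => (t1 τ hτ).elim fun v hv => pts_ne hv
  have d2 := pts_bad t1 t2 β _ c3 1 2 fun τ hτ => (t1 τ hτ).elim fun v hv e =>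
    hv.2.2.ne (congrArg Prod.fst e)
  set T1 := T.filter fun τ => β (τ 0) ≠ β (τ 1) ∧ β (τ 1) ≠ β (τ 2) with hT1
  have d3 : T.card ≤ T1.card + ((T.filter fun τ => β (τ 0) = β (τ 1)).card +
      (T.filter fun τ => β (τ 1) = β (τ 2)).card) := by
    refine le_trans (card_le_card fun τ hτ => ?_)
      ((card_union_le _ _).trans (Nat.add_le_add_left (card_union_le _ _) _))
    simp only [hT1, mem_union, mem_filter, hτ, true_and]
    tauto
  have d4 : m * (A.card / m + 1) ≤ 2 * A.card := by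
    have := Nat.mul_div_le A.card m
    rw [mul_add]
    omega
  have d5 : δ / (2 * ((k : ℝ) + 1) ^ 2) * (A.card : ℝ) ^ 2 ≤ T1.card := by
    have e1 : δ * (A.card : ℝ) ^ 2 ≤ ((k : ℝ) + 1) ^ 2 * T.card := by
      refine hR.trans (le_trans (by exact_mod_cast t3 : _ ≤ (k : ℝ) * k * T.card) ?_)
      exact mul_le_mul_of_nonneg_right (by nlinarith) (Nat.cast_nonneg _)
    have e2 : (T.card : ℝ) ≤ T1.card + 2 * (((A.card / m + 1 : ℕ) : ℝ) * A.card) := by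
      exact_mod_cast (show T.card ≤ T1.card + 2 * ((A.card / m + 1) * A.card) by omega)
    have e3 : (m : ℝ) * ((A.card / m + 1 : ℕ) : ℝ) ≤ 2 * A.card := by exact_mod_cast d4
    generalize ((A.card / m + 1 : ℕ) : ℝ) = B at e2 e3
    have e4 : 4 * ((k : ℝ) + 1) ^ 2 * B ≤ δ * A.card := by
      refine le_of_mul_le_mul_left ?_ hm0
      have := mul_le_mul_of_nonneg_left e3 (show 0 ≤ 4 * ((k : ℝ) + 1) ^ 2 by positivity)
      have := mul_le_mul_of_nonneg_right hm hn0.le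
      nlinarith
    rw [div_mul_eq_mul_div, div_le_iff₀ (by positivity)]
    have e5 := mul_le_mul_of_nonneg_left e2 (show 0 ≤ ((k : ℝ) + 1) ^ 2 by positivity)
    have e6 := mul_le_mul_of_nonneg_right e4 hn0.le
    nlinarith
  obtain ⟨b, -, hb⟩ := exists_le_card_fiber_of_nsmul_le_card_of_maps_to (s := T1)
    (t := Fintype.piFinset fun _ : Fin 3 => range m) (f := fun τ i => β (τ i))
    (b := δ / (2 * ((k : ℝ) + 1) ^ 2 * (m : ℝ) ^ 3) * (A.card : ℝ) ^ 2)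
    (fun τ hτ => Fintype.mem_piFinset.2 fun i => mem_range.2
      ((t1 τ (mem_filter.1 hτ).1).elim fun v hv => c2 _ (hv.1 i).1))
    (Fintype.piFinset_nonempty.2 fun _ => nonempty_range_iff.2 hm1.ne') (by
      refine le_trans (le_of_eq ?_) d5
      rw [Fintype.card_piFinset_const, card_range, nsmul_eq_mul]
      push_cast
      field_simp)
  set T2 := T1.filter fun τ => (fun i => β (τ i)) = b with hT2
  have s1 : T2 ⊆ T := (filter_subset _ _).trans (filter_subset _ _)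
  have s2 : ∀ τ ∈ T2, ∀ i, β (τ i) = b i := fun τ hτ i => congrFun (mem_filter.1 hτ).2 i
  obtain ⟨τ0, h0⟩ : T2.Nonempty :=
    card_pos.1 (Nat.cast_pos.1 (lt_of_lt_of_le (by positivity) hb : (0 : ℝ) < _))
  obtain ⟨v0, hv0⟩ := t1 τ0 (s1 h0)
  have s3 := (mem_filter.1 (mem_filter.1 h0).1).2
  obtain ⟨g1, g2⟩ := pts_sys hi hk (fun τ hτ => t1 τ (s1 hτ))
    (fun τ hτ τ' hτ' => t2 τ (s1 hτ) τ' (s1 hτ')) β c1 b
    (by rw [← s2 τ0 h0, ← s2 τ0 h0]; exact lt_of_le_of_ne (c1 _ _ hv0.2.1.le) s3.1)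
    (by rw [← s2 τ0 h0, ← s2 τ0 h0]; exact lt_of_le_of_ne (c1 _ _ hv0.2.2.le) s3.2) s2 ⟨τ0, h0⟩
  obtain ⟨f, f0, f3, hf⟩ := H A.card (by omega) _ T2 g1 g2 hb
  refine ⟨f, f0, f3, le_trans (mul_le_mul_of_nonneg_right (min_le_left _ _) hn0.le) ?_⟩
  have k1 : (cov f T2).card ≤ A.card * (A.filter fun p => ev f p = 0).card := by
    refine card_le_mul_card_image_of_maps_to (f := fun τ => τ 0) (fun τ hτ => ?_) _ fun p _ =>
      le_trans (card_le_card ?_) (ts_deg g1 0 p)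
    · unfold cov at hτ
      exact mem_filter.2 ⟨(mem_filter.1 (g1.mem τ (mem_filter.1 hτ).1 0)).1,
        (mem_filter.1 hτ).2 0⟩
    · intro τ hτ
      unfold cov at hτ
      exact mem_filter.2 ⟨(mem_filter.1 (mem_filter.1 hτ).1).1, (mem_filter.1 hτ).2⟩
  refine le_of_mul_le_mul_left ?_ hn0
  have k2 : ((cov f T2).card : ℝ) ≤ A.card * (A.filter fun p => ev f p = 0).card := by
    exact_mod_cast k1
  nlinarith

end ECub.C
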