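import Pool.Agent.P.MP_029dcd_co.F.C.Mob

/-! Layer C: separated slopes are reduced to standard position by compactness. -/

set_option autoImplicit false

namespace ECub.C

open CubicStab Finset

/-- after one affine map the slopes of every triple satisfy `Φ` -/
def Aff (Φ : (Fin 3 → ℝ) → Prop) (T : Finset Tri) : Prop :=
  ∃ a b : ℝ, a ≠ 0 ∧ All (fun t => Φ fun i => a * t i + b) T

theorem CUB.aff {Φ : (Fin 3 → ℝ) → Prop} (h : CUB (All Φ)) : CUB (Aff Φ) := by
  refine h.mob.mono ?_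
  rintro T ⟨a, b, ha, hT⟩
  refine ⟨a, b, 0, 1, by simpa using ha, fun τ hτ => ⟨by simp, ?_⟩⟩
  simpa using hT τ hτ

theorem sep_of {θ : ℝ} {t : Fin 3 → ℝ} (h01 : θ * max 1 |t 0| * max 1 |t 1| ≤ |t 0 - t 1|)
    (h02 : θ * max 1 |t 0| * max 1 |t 2| ≤ |t 0 - t 2|)
    (h12 : θ * max 1 |t 1| * max 1 |t 2| ≤ |t 1 - t 2|) : Sep θ t := by
  have sw : ∀ i j, θ * max 1 |t i| * max 1 |t j| ≤ |t i - t j| →
      θ * max 1 |t j| * max 1 |t i| ≤ |t j - t i| := fun i j h => by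
    rwa [abs_sub_comm, mul_right_comm]
  intro i j hij
  fin_cases i <;> fin_cases j
  all_goals first
    | exact absurd rfl hij
    | assumption
    | exact sw _ _ (by assumption)

def det2 (x y : ℝ × ℝ) : ℝ := x.1 * y.2 - x.2 * y.1

/-- the directions that the matrix `m` brings to standard position -/
def nearStd (m : ℝ × ℝ × ℝ × ℝ) : Set (Fin 3 → ℝ × ℝ) :=
  {x | ∀ i, |m.1 * (x i).2 + m.2.1 * (x i).1 - ctr i * (m.2.2.1 * (x i).2 + m.2.2.2 * (x i).1)| <
    1 / 100 * |m.2.2.1 * (x i).2 + m.2.2.2 * (x i).1|}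

theorem isOpen_nearStd (m : ℝ × ℝ × ℝ × ℝ) : IsOpen (nearStd m) := by
  have : nearStd m = ⋂ i, {x : Fin 3 → ℝ × ℝ |
      |m.1 * (x i).2 + m.2.1 * (x i).1 - ctr i * (m.2.2.1 * (x i).2 + m.2.2.2 * (x i).1)| <
        1 / 100 * |m.2.2.1 * (x i).2 + m.2.2.2 * (x i).1|} := by
    ext x
    simp [nearStd]
  rw [this]
  exact isOpen_iInter_of_finite fun i => isOpen_lt (by fun_prop) (by fun_prop)

theorem exists_nearStd (x : Fin 3 → ℝ × ℝ) (h01 : det2 (x 0) (x 1) ≠ 0)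
    (h20 : det2 (x 2) (x 0) ≠ 0) (h21 : det2 (x 2) (x 1) ≠ 0) :
    ∃ m : ℝ × ℝ × ℝ × ℝ, m.1 * m.2.2.2 - m.2.1 * m.2.2.1 ≠ 0 ∧ x ∈ nearStd m := by
  refine ⟨((x 0).1 * det2 (x 2) (x 1) - (x 1).1 * det2 (x 2) (x 0),
    (x 1).2 * det2 (x 2) (x 0) - (x 0).2 * det2 (x 2) (x 1),
    -((x 1).1 * det2 (x 2) (x 0) + (x 0).1 * det2 (x 2) (x 1)),
    (x 1).2 * det2 (x 2) (x 0) + (x 0).2 * det2 (x 2) (x 1)), ?_, fun i => ?_⟩
  · have := mul_ne_zero two_ne_zero (mul_ne_zero h01 (mul_ne_zero h20 h21))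
    convert this using 1
    simp only [det2]
    ring
  · have key : ∀ u v : ℝ, u = 0 → v ≠ 0 → |u| < 1 / 100 * |v| := fun u v hu hv => by
      rw [hu, abs_zero]
      positivity
    fin_cases i
    · refine key _ _ (by simp [ctr, det2]; ring) ?_
      convert mul_ne_zero h01 h20 using 1
      simp [det2]
      ring
    · refine key _ _ (by simp [ctr, det2]; ring) ?_
      convert neg_ne_zero.2 (mul_ne_zero h01 h21) using 1
      simp [det2]
      ring
    · refine key _ _ (by simp [ctr, det2]; ring) ?_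
      convert mul_ne_zero two_ne_zero (mul_ne_zero h20 h21) using 1
      simp [det2]
      ring

theorem cub_sep (h : CUB (All StdS)) {θ : ℝ} (hθ : 0 < θ) : CUB (All (Sep θ)) := by
  let K : Set (Fin 3 → ℝ × ℝ) :=
    Metric.closedBall 0 1 ∩ ⋂ i, ⋂ j, ⋂ (_ : i ≠ j), {x | θ ≤ |det2 (x i) (x j)|}
  have hK : IsCompact K := by
    refine (isCompact_closedBall 0 1).inter_right (isClosed_iInter fun i => isClosed_iInter
      fun j => isClosed_iInter fun _ => isClosed_le continuous_const ?_)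
    unfold det2
    fun_prop
  obtain ⟨s, hs⟩ := hK.elim_finite_subcover
    (fun m : {m : ℝ × ℝ × ℝ × ℝ // m.1 * m.2.2.2 - m.2.1 * m.2.2.1 ≠ 0} => nearStd m.1)
    (fun m => isOpen_nearStd _) (by
      intro x hx
      have h1 : ∀ i j, i ≠ j → det2 (x i) (x j) ≠ 0 := fun i j hij e => by
        have h2 : θ ≤ |det2 (x i) (x j)| := by
          have := hx.2
          simp only [Set.mem_iInter] at this
          exact this i j hij
        rw [e, abs_zero] at h2
        exact absurd hθ (not_lt.2 h2)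
      obtain ⟨m, hm, hxm⟩ := exists_nearStd x (h1 _ _ (by decide)) (h1 _ _ (by decide))
        (h1 _ _ (by decide))
      exact Set.mem_iUnion.2 ⟨⟨m, hm⟩, hxm⟩)
  refine (CUB.fin s (fun m t => (∀ i, m.1.2.2.1 * t i + m.1.2.2.2 ≠ 0) ∧
    StdS fun i => (m.1.1 * t i + m.1.2.1) / (m.1.2.2.1 * t i + m.1.2.2.2))
    fun m _ => h.mob.mono fun T hT => ⟨_, _, _, _, m.2, hT⟩).imp fun t ht => ?_
  have hM : ∀ i, 0 < max 1 |t i| := fun i => lt_max_of_lt_left one_pos
  have hx : (fun i => ((max 1 |t i|)⁻¹, (max 1 |t i|)⁻¹ * t i)) ∈ K := by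
    refine ⟨?_, ?_⟩
    · rw [mem_closedBall_zero_iff, pi_norm_le_iff_of_nonneg zero_le_one]
      intro i
      rw [Prod.norm_def, Real.norm_eq_abs, Real.norm_eq_abs, abs_mul,
        abs_of_pos (inv_pos.2 (hM i))]
      exact max_le (inv_le_one_of_one_le₀ (le_max_left _ _))
        ((inv_mul_le_iff₀ (hM i)).2 (by rw [mul_one]; exact le_max_right _ _))
    · simp only [Set.mem_iInter]
      intro i j hij
      have h1 := ht i j hij
      have e : det2 ((max 1 |t i|)⁻¹, (max 1 |t i|)⁻¹ * t i)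
          ((max 1 |t j|)⁻¹, (max 1 |t j|)⁻¹ * t j) =
          (t j - t i) / (max 1 |t i| * max 1 |t j|) := by
        have := (hM i).ne'
        have := (hM j).ne'
        simp only [det2]
        field_simp
      change θ ≤ |det2 _ _|
      rw [e, abs_div, abs_of_pos (mul_pos (hM i) (hM j)), le_div_iff₀ (mul_pos (hM i) (hM j)),
        abs_sub_comm, ← mul_assoc]
      exact h1
  obtain ⟨m, hm, hxm⟩ := Set.mem_iUnion₂.1 (hs hx)
  have h2 : ∀ i, |m.1.1 * t i + m.1.2.1 - ctr i * (m.1.2.2.1 * t i + m.1.2.2.2)| <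
      1 / 100 * |m.1.2.2.1 * t i + m.1.2.2.2| := by
    intro i
    have h3 := hxm i
    have hp := inv_pos.2 (hM i)
    dsimp only at h3
    generalize (max 1 |t i|)⁻¹ = r at h3 hp
    rw [show m.1.1 * (r * t i) + m.1.2.1 * r - ctr i * (m.1.2.2.1 * (r * t i) + m.1.2.2.2 * r) =
      r * (m.1.1 * t i + m.1.2.1 - ctr i * (m.1.2.2.1 * t i + m.1.2.2.2)) by ring,
      show m.1.2.2.1 * (r * t i) + m.1.2.2.2 * r = r * (m.1.2.2.1 * t i + m.1.2.2.2) by ring,
      abs_mul, abs_mul, abs_of_pos hp, mul_left_comm] at h3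
    exact lt_of_mul_lt_mul_left h3 hp.le
  have h4 : ∀ i, m.1.2.2.1 * t i + m.1.2.2.2 ≠ 0 := fun i e => by
    have := h2 i
    rw [e, abs_zero, mul_zero, mul_zero] at this
    exact absurd this (not_lt.2 (abs_nonneg _))
  refine ⟨m, hm, h4, fun i => ?_⟩
  rw [div_sub' (h4 i), abs_div, div_le_iff₀ (abs_pos.2 (h4 i)), mul_comm _ (ctr i)]
  exact (h2 i).le

end ECub.C
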